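import Mathlib

/-!
Counting lemmas for random functions `V → Fin k`.
-/

set_option autoImplicit false

namespace Pool.Agent.Helper6.Neg

variable {V : Type} [Fintype V] [DecidableEq V]

/-- the functions vanishing on `X` -/
def zeroOn (C : ℕ) [NeZero C] (X : Finset V) : Finset (V → Fin C) :=
  Finset.univ.filter (fun d => ∀ v ∈ X, d v = 0)

lemma mem_zeroOn (C : ℕ) [NeZero C] (X : Finset V) (d : V → Fin C) :
    d ∈ zeroOn C X ↔ ∀ v ∈ X, d v = 0 := by
  simp [zeroOn]

lemma card_zeroOn (C : ℕ) [NeZero C] (X : Finset V) :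
    (zeroOn C X).card * C ^ X.card = C ^ Fintype.card V := by
  have h1 : zeroOn C X = Fintype.piFinset
      (fun v => if v ∈ X then ({0} : Finset (Fin C)) else Finset.univ) := by
    ext d
    rw [mem_zeroOn, Fintype.mem_piFinset]
    constructor
    · intro h v
      by_cases hv : v ∈ X
      · simp [hv, h v hv]
      · simp [hv]
    · intro h v hv
      have := h v
      simpa [hv] using this
  rw [h1, Fintype.card_piFinset]
  have h2 : ∀ v : V, (if v ∈ X then ({0} : Finset (Fin C)) else Finset.univ).card
      = if v ∈ X then 1 else C := by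
    intro v
    by_cases hv : v ∈ X
    · simp [hv]
    · simp [hv]
  rw [Finset.prod_congr rfl (fun v _ => h2 v), Finset.prod_ite, Finset.prod_const_one, one_mul,
    Finset.prod_const]
  rw [← pow_add]
  congr 1
  have h3 : (Finset.univ.filter (fun v => v ∉ X)).card + X.card = Fintype.card V := by
    have := Finset.card_filter_add_card_filter_not (s := (Finset.univ : Finset V)) (fun v => v ∈ X)
    rw [Finset.card_univ] at this
    have h4 : (Finset.univ.filter (fun v => v ∈ X)) = X := by
      ext v; simp
    rw [h4] at this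
    omega
  exact h3

/-- the functions with `c (u i) = c (v i)` for all `i` -/
def eqOn (k : ℕ) {r : ℕ} (u v : Fin r → V) : Finset (V → Fin k) :=
  Finset.univ.filter (fun c => ∀ i, c (u i) = c (v i))

lemma card_eqOn (k : ℕ) {r : ℕ} (u v : Fin r → V) (hu : Function.Injective u)
    (huv : ∀ i j, v j ≠ u i) : (eqOn k u v).card * k ^ r ≤ k ^ Fintype.card V := by
  have hinj : (eqOn k u v).card ≤ Fintype.card ({x : V // x ∉ Finset.univ.image u} → Fin k) := by
    rw [← Fintype.card_coe]
    apply Fintype.card_le_of_injective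
      (fun (c : eqOn k u v) (x : {x : V // x ∉ Finset.univ.image u}) => (c : V → Fin k) x)
    intro c c' hcc
    apply Subtype.ext
    funext x
    by_cases hx : x ∈ Finset.univ.image u
    · obtain ⟨i, -, rfl⟩ := Finset.mem_image.mp hx
      have h1 := (Finset.mem_filter.mp c.2).2 i
      have h2 := (Finset.mem_filter.mp c'.2).2 i
      have h3 : v i ∉ Finset.univ.image u := by
        intro h
        obtain ⟨j, -, hj⟩ := Finset.mem_image.mp h
        exact huv j i hj.symm
      have h4 := congrFun hcc ⟨v i, h3⟩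
      simp only at h4
      rw [h1, h2, h4]
    · exact congrFun hcc ⟨x, hx⟩
  have hcard : Fintype.card ({x : V // x ∉ Finset.univ.image u} → Fin k) * k ^ r
      = k ^ Fintype.card V := by
    rw [Fintype.card_fun, Fintype.card_fin, ← pow_add]
    congr 1
    have h1 : Fintype.card {x : V // x ∉ Finset.univ.image u}
        = Fintype.card V - (Finset.univ.image u).card := by
      rw [Fintype.card_subtype_compl, Fintype.card_coe]
    have h2 : (Finset.univ.image u).card = r := by
      rw [Finset.card_image_of_injective _ hu]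
      simp
    have h3 : (Finset.univ.image u).card ≤ Fintype.card V := Finset.card_le_univ _
    rw [h1, h2]
    rw [h2] at h3
    omega
  calc (eqOn k u v).card * k ^ r ≤ _ * k ^ r := Nat.mul_le_mul_right _ hinj
    _ = _ := hcard

/-- the functions which are injective on `Z` and on no `X i` -/
noncomputable def badSet (k : ℕ) {r : ℕ} (Z : Finset V) (X : Fin r → Finset V) :
    Finset (V → Fin k) := by
  classical
  exact Finset.univ.filter (fun c => Set.InjOn c (Z : Set V) ∧ ∀ i, ¬ Set.InjOn c (X i : Set V))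

lemma mem_badSet (k : ℕ) {r : ℕ} (Z : Finset V) (X : Fin r → Finset V) (c : V → Fin k) :
    c ∈ badSet k Z X ↔ Set.InjOn c (Z : Set V) ∧ ∀ i, ¬ Set.InjOn c (X i : Set V) := by
  unfold badSet
  simp

lemma card_badSet (k w : ℕ) {r : ℕ} (Z : Finset V) (X : Fin r → Finset V)
    (hXX : ∀ i j, i ≠ j → X i ∩ X j ⊆ Z) (hw : ∀ i, (X i).card ≤ w) :
    (badSet k Z X).card * k ^ r ≤ (w * w) ^ r * k ^ Fintype.card V := by
  classical
  set P : Finset (Fin r → V × V) :=
    (Fintype.piFinset (fun i => (X i \ Z) ×ˢ (X i))).filter (fun f => ∀ i, (f i).1 ≠ (f i).2)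
    with hP
  have hsub : badSet k Z X ⊆ P.biUnion (fun f => eqOn k (fun i => (f i).1) (fun i => (f i).2)) := by
    intro c hc
    rw [mem_badSet] at hc
    obtain ⟨hZ, hX⟩ := hc
    have hch : ∀ i, ∃ p : V × V, p.1 ∈ X i \ Z ∧ p.2 ∈ X i ∧ p.1 ≠ p.2 ∧ c p.1 = c p.2 := by
      intro i
      have h1 := hX i
      unfold Set.InjOn at h1
      push Not at h1
      obtain ⟨a, ha, b, hb, hab, hne⟩ := h1
      by_cases haZ : a ∈ Z
      · have hbZ : b ∉ Z := by
          intro hbZ
          exact hne (hZ haZ hbZ hab)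
        exact ⟨(b, a), Finset.mem_sdiff.mpr ⟨hb, hbZ⟩, ha, fun h => hne h.symm, hab.symm⟩
      · exact ⟨(a, b), Finset.mem_sdiff.mpr ⟨ha, haZ⟩, hb, hne, hab⟩
    choose f hf1 hf2 hf3 hf4 using hch
    rw [Finset.mem_biUnion]
    refine ⟨f, ?_, ?_⟩
    · rw [hP, Finset.mem_filter, Fintype.mem_piFinset]
      exact ⟨fun i => Finset.mem_product.mpr ⟨hf1 i, hf2 i⟩, hf3⟩
    · unfold eqOn
      simp only [Finset.mem_filter, Finset.mem_univ, true_and]
      exact hf4
  have hone : ∀ f ∈ P, (eqOn k (fun i => (f i).1) (fun i => (f i).2)).card * k ^ r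
      ≤ k ^ Fintype.card V := by
    intro f hf
    rw [hP, Finset.mem_filter, Fintype.mem_piFinset] at hf
    obtain ⟨hf1, hf2⟩ := hf
    have hf1' : ∀ i, (f i).1 ∈ X i ∧ (f i).1 ∉ Z ∧ (f i).2 ∈ X i := by
      intro i
      have := Finset.mem_product.mp (hf1 i)
      exact ⟨(Finset.mem_sdiff.mp this.1).1, (Finset.mem_sdiff.mp this.1).2, this.2⟩
    apply card_eqOn
    · intro i j hij
      by_contra hne
      have h1 : (f i).1 ∈ X i ∩ X j := by
        rw [Finset.mem_inter]
        refine ⟨(hf1' i).1, ?_⟩
        have : (f i).1 = (f j).1 := hij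
        rw [this]
        exact (hf1' j).1
      exact (hf1' i).2.1 (hXX i j hne h1)
    · intro i j hij
      by_cases hne : i = j
      · subst hne
        exact hf2 i hij.symm
      · have h1 : (f i).1 ∈ X i ∩ X j := by
          rw [Finset.mem_inter]
          refine ⟨(hf1' i).1, ?_⟩
          have : (f j).2 = (f i).1 := hij
          rw [← this]
          exact (hf1' j).2.2
        exact (hf1' i).2.1 (hXX i j hne h1)
  have hPcard : P.card ≤ (w * w) ^ r := by
    calc P.card ≤ (Fintype.piFinset (fun i => (X i \ Z) ×ˢ (X i))).card :=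
          Finset.card_filter_le _ _
      _ = ∏ i, ((X i \ Z) ×ˢ (X i)).card := Fintype.card_piFinset _
      _ ≤ ∏ _i : Fin r, (w * w) := by
          apply Finset.prod_le_prod'
          intro i _
          rw [Finset.card_product]
          apply Nat.mul_le_mul _ (hw i)
          exact (Finset.card_le_card Finset.sdiff_subset).trans (hw i)
      _ = (w * w) ^ r := by simp
  calc (badSet k Z X).card * k ^ r
      ≤ (P.biUnion (fun f => eqOn k (fun i => (f i).1) (fun i => (f i).2))).card * k ^ r :=
        Nat.mul_le_mul_right _ (Finset.card_le_card hsub)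
    _ ≤ (∑ f ∈ P, (eqOn k (fun i => (f i).1) (fun i => (f i).2)).card) * k ^ r :=
        Nat.mul_le_mul_right _ Finset.card_biUnion_le
    _ = ∑ f ∈ P, (eqOn k (fun i => (f i).1) (fun i => (f i).2)).card * k ^ r := by
        rw [Finset.sum_mul]
    _ ≤ ∑ _f ∈ P, k ^ Fintype.card V := Finset.sum_le_sum hone
    _ = P.card * k ^ Fintype.card V := by simp
    _ ≤ (w * w) ^ r * k ^ Fintype.card V := Nat.mul_le_mul_right _ hPcard

/-- the functions which are not injective on `X` -/
noncomputable def notInj (k : ℕ) (X : Finset V) : Finset (V → Fin k) := by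
  classical
  exact Finset.univ.filter (fun c => ¬ Set.InjOn c (X : Set V))

lemma mem_notInj (k : ℕ) (X : Finset V) (c : V → Fin k) :
    c ∈ notInj k X ↔ ¬ Set.InjOn c (X : Set V) := by
  unfold notInj
  simp

lemma card_notInj (k w : ℕ) (X : Finset V) (hw : X.card ≤ w) :
    (notInj k X).card * k ≤ w * w * k ^ Fintype.card V := by
  have h1 : notInj k X = badSet k ∅ (fun _ : Fin 1 => X) := by
    ext c
    rw [mem_notInj, mem_badSet]
    simp
  rw [h1]
  have h2 := card_badSet k w (r := 1) ∅ (fun _ : Fin 1 => X)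
    (fun i j hij => absurd (Subsingleton.elim i j) hij) (fun _ => hw)
  simpa using h2

end Pool.Agent.Helper6.Neg
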