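import Mathlib

/-!
The sunflower lemma of Erdos and Rado, for families of sets of size at most `w`.
-/

set_option autoImplicit false

namespace Pool.Agent.Helper6.Neg

variable {V : Type} [DecidableEq V]

/-- a family with more than `(r * w) ^ w` sets of size at most `w` contains a sunflower with `r`
petals -/
theorem exists_sunflower (r : ℕ) (hr : 1 ≤ r) (w : ℕ) (F : Finset (Finset V))
    (hw : ∀ X ∈ F, X.card ≤ w) (hF : (r * w) ^ w < F.card) :
    ∃ (X : Fin r → Finset V) (Z : Finset V), Function.Injective X ∧ (∀ i, X i ∈ F) ∧
      (∀ i, Z ⊆ X i) ∧ ∀ i j, i ≠ j → X i ∩ X j = Z := by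
  induction w generalizing F with
  | zero =>
    exfalso
    have h1 : F ⊆ {∅} := by
      intro X hX
      have := hw X hX
      simp only [Nat.le_zero, Finset.card_eq_zero] at this
      simp [this]
    have h2 := Finset.card_le_card h1
    simp at hF h2
    omega
  | succ w ih =>
    -- maximal disjoint families of nonempty members
    classical
    let P : Finset (Finset V) → Prop := fun D => (∀ X ∈ D, X.Nonempty) ∧
      ∀ X ∈ D, ∀ Y ∈ D, X ≠ Y → Disjoint X Y
    have hex : ∃ D ∈ F.powerset.filter P, ∀ D' ∈ F.powerset.filter P, D'.card ≤ D.card := by
      have hne : (F.powerset.filter P).Nonempty := by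
        refine ⟨∅, ?_⟩
        simp [P]
      exact Finset.exists_max_image _ _ hne
    obtain ⟨D, hD, hmax⟩ := hex
    rw [Finset.mem_filter, Finset.mem_powerset] at hD
    obtain ⟨hDF, hDne, hDdis⟩ := hD
    by_cases hcard : r ≤ D.card
    · -- a sunflower with empty core
      obtain ⟨D', hD'D, hD'card⟩ := Finset.exists_subset_card_eq hcard
      let e : Fin r ≃ D' := (Fintype.equivFinOfCardEq (by simp [hD'card])).symm
      refine ⟨fun i => (e i : Finset V), ∅, ?_, ?_, ?_, ?_⟩
      · intro i j hij
        exact e.injective (Subtype.ext hij)
      · intro i
        exact hDF (hD'D (e i).2)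
      · intro i
        exact Finset.empty_subset _
      · intro i j hij
        have hne : (e i : Finset V) ≠ (e j : Finset V) := by
          intro h
          exact hij (e.injective (Subtype.ext h))
        exact Finset.disjoint_iff_inter_eq_empty.mp
          (hDdis _ (hD'D (e i).2) _ (hD'D (e j).2) hne)
    · -- pigeonhole
      push Not at hcard
      set U : Finset V := D.biUnion id with hU
      have hUcard : U.card ≤ (r - 1) * (w + 1) := by
        calc U.card ≤ D.card * (w + 1) := by
              apply Finset.card_biUnion_le_card_mul
              intro X hX
              exact hw X (hDF hX)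
          _ ≤ (r - 1) * (w + 1) := by
              apply Nat.mul_le_mul_right
              omega
      -- every nonempty member meets U
      have hmeet : ∀ X ∈ F, X.Nonempty → ∃ u ∈ U, u ∈ X := by
        intro X hX hXne
        by_contra hcon
        push Not at hcon
        have hdis : ∀ Y ∈ D, Disjoint X Y := by
          intro Y hY
          rw [Finset.disjoint_left]
          intro u huX huY
          exact hcon u (Finset.mem_biUnion.mpr ⟨Y, hY, huY⟩) huX
        have hXD : X ∉ D := by
          intro hXD
          have := hdis X hXD
          rw [disjoint_self] at this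
          exact hXne.ne_empty this
        have h1 : insert X D ∈ F.powerset.filter P := by
          rw [Finset.mem_filter, Finset.mem_powerset]
          refine ⟨?_, ?_, ?_⟩
          · intro Y hY
            rcases Finset.mem_insert.mp hY with h | h
            · rw [h]; exact hX
            · exact hDF h
          · intro Y hY
            rcases Finset.mem_insert.mp hY with h | h
            · rw [h]; exact hXne
            · exact hDne Y h
          · intro Y hY Y' hY' hne
            rcases Finset.mem_insert.mp hY with h | h <;> rcases Finset.mem_insert.mp hY' with h' | h'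
            · exact absurd (h.trans h'.symm) hne
            · rw [h]; exact hdis Y' h'
            · rw [h']; exact (hdis Y h).symm
            · exact hDdis Y h Y' h' hne
        have h2 := hmax _ h1
        rw [Finset.card_insert_of_notMem hXD] at h2
        omega
      have hpig : ∃ u ∈ U, (r * w) ^ w < (F.filter (fun X => u ∈ X)).card := by
        by_contra hcon
        push Not at hcon
        have hsub : F ⊆ {∅} ∪ U.biUnion (fun u => F.filter (fun X => u ∈ X)) := by
          intro X hX
          rcases Finset.eq_empty_or_nonempty X with h | h
          · simp [h]
          · obtain ⟨u, huU, huX⟩ := hmeet X hX h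
            apply Finset.mem_union_right
            exact Finset.mem_biUnion.mpr ⟨u, huU, Finset.mem_filter.mpr ⟨hX, huX⟩⟩
        have h1 : F.card ≤ 1 + U.card * (r * w) ^ w := by
          calc F.card ≤ _ := Finset.card_le_card hsub
            _ ≤ ({∅} : Finset (Finset V)).card +
                (U.biUnion (fun u => F.filter (fun X => u ∈ X))).card := Finset.card_union_le _ _
            _ ≤ 1 + U.card * (r * w) ^ w := by
                apply Nat.add_le_add
                · simp
                · exact Finset.card_biUnion_le_card_mul _ _ _ hcon
        have h2 : 1 + U.card * (r * w) ^ w ≤ (r * (w + 1)) ^ (w + 1) := by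
          have h3 : (r * w) ^ w ≤ (r * (w + 1)) ^ w := by
            apply Nat.pow_le_pow_left
            exact Nat.mul_le_mul_left _ (Nat.le_succ w)
          have h4 : 1 ≤ (r * (w + 1)) ^ w := Nat.one_le_pow _ _ (by positivity)
          calc 1 + U.card * (r * w) ^ w ≤ 1 + ((r - 1) * (w + 1)) * (r * (w + 1)) ^ w := by
                apply Nat.add_le_add_left
                exact Nat.mul_le_mul hUcard h3
            _ ≤ (w + 1) * (r * (w + 1)) ^ w + ((r - 1) * (w + 1)) * (r * (w + 1)) ^ w := by
                apply Nat.add_le_add_right
                calc 1 ≤ 1 * 1 := by norm_num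
                  _ ≤ (w + 1) * (r * (w + 1)) ^ w := Nat.mul_le_mul (by omega) h4
            _ = ((r - 1 + 1) * (w + 1)) * (r * (w + 1)) ^ w := by ring
            _ = (r * (w + 1)) ^ (w + 1) := by
                rw [Nat.sub_add_cancel hr, pow_succ]
                ring
        omega
      obtain ⟨u, -, hu⟩ := hpig
      -- the link of u
      set L : Finset (Finset V) := (F.filter (fun X => u ∈ X)).image (fun X => X.erase u) with hL
      have hLcard : L.card = (F.filter (fun X => u ∈ X)).card := by
        apply Finset.card_image_of_injOn
        intro X hX Y hY hXY
        have hX' : u ∈ X := (Finset.mem_filter.mp hX).2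
        have hY' : u ∈ Y := (Finset.mem_filter.mp hY).2
        have hXY' : X.erase u = Y.erase u := hXY
        rw [← Finset.insert_erase hX', hXY', Finset.insert_erase hY']
      have hLw : ∀ X ∈ L, X.card ≤ w := by
        intro X hX
        obtain ⟨Y, hY, rfl⟩ := Finset.mem_image.mp hX
        have hY' := Finset.mem_filter.mp hY
        rw [Finset.card_erase_of_mem hY'.2]
        have := hw Y hY'.1
        omega
      obtain ⟨X, Z, hXinj, hXL, hZX, hXX⟩ := ih L hLw (by rw [hLcard]; exact hu)
      have hXu : ∀ i, u ∉ X i := by
        intro i
        obtain ⟨Y, -, hY⟩ := Finset.mem_image.mp (hXL i)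
        rw [← hY]
        exact Finset.notMem_erase u Y
      refine ⟨fun i => insert u (X i), insert u Z, ?_, ?_, ?_, ?_⟩
      · intro i j hij
        apply hXinj
        have hij' : insert u (X i) = insert u (X j) := hij
        rw [← Finset.erase_insert (hXu i), hij', Finset.erase_insert (hXu j)]
      · intro i
        obtain ⟨Y, hY, hYX⟩ := Finset.mem_image.mp (hXL i)
        have hY' := Finset.mem_filter.mp hY
        show insert u (X i) ∈ F
        rw [← hYX, Finset.insert_erase hY'.2]
        exact hY'.1
      · intro i
        exact Finset.insert_subset_insert u (hZX i)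
      · intro i j hij
        show insert u (X i) ∩ insert u (X j) = insert u Z
        rw [← Finset.insert_inter_distrib, hXX i j hij]

end Pool.Agent.Helper6.Neg
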