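import Pool.Agent.Helper6.Neg.Circuit
import Pool.Agent.Helper6.Neg.Sunflower
import Pool.Agent.Helper6.Neg.Count

/-!
The method of approximations of Razborov, in the form of a dichotomy for circuits whose NOT gates
are constant on the tests.
-/

set_option autoImplicit false
set_option linter.unusedSectionVars false

namespace Pool.Agent.Helper6.Neg

variable {V : Type} [Fintype V] [DecidableEq V]

/-- some member of `F` is contained in the zero set of `d` -/
def posAcc {C : ℕ} [NeZero C] (F : Finset (Finset V)) (d : V → Fin C) : Prop :=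
  ∃ X ∈ F, ∀ v ∈ X, d v = 0

/-- `c` is injective on some member of `F` -/
def negAcc {k : ℕ} (F : Finset (Finset V)) (c : V → Fin k) : Prop :=
  ∃ X ∈ F, Set.InjOn c (X : Set V)

/-- the colourings accepted by `F'` and not by `F` -/
noncomputable def negDiff (k : ℕ) (F' F : Finset (Finset V)) : Finset (V → Fin k) := by
  classical
  exact Finset.univ.filter (fun c => negAcc F' c ∧ ¬ negAcc F c)

lemma mem_negDiff (k : ℕ) (F' F : Finset (Finset V)) (c : V → Fin k) :
    c ∈ negDiff k F' F ↔ negAcc F' c ∧ ¬ negAcc F c := by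
  unfold negDiff
  simp

/-- plucking -/
theorem exists_pluck (k w r : ℕ) (hr : 2 ≤ r) (n : ℕ) (F : Finset (Finset V)) (hn : F.card ≤ n)
    (hw : ∀ X ∈ F, X.card ≤ w) :
    ∃ F' : Finset (Finset V), F'.card ≤ (r * w) ^ w ∧ (∀ X ∈ F', X.card ≤ w) ∧
      (∀ X ∈ F, ∃ Y ∈ F', Y ⊆ X) ∧
      (negDiff k F' F).card * k ^ r ≤ n * ((w * w) ^ r * k ^ Fintype.card V) := by
  induction n generalizing F with
  | zero =>
    have hF : F = ∅ := by
      rw [← Finset.card_eq_zero]
      omega
    refine ⟨∅, by simp, by simp, by simp [hF], ?_⟩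
    have h1 : negDiff k (∅ : Finset (Finset V)) F = ∅ := by
      ext c
      rw [mem_negDiff]
      simp [negAcc]
    rw [h1]
    simp
  | succ n ih =>
    by_cases hcard : F.card ≤ (r * w) ^ w
    · refine ⟨F, hcard, hw, fun X hX => ⟨X, hX, subset_rfl⟩, ?_⟩
      have h1 : negDiff k F F = ∅ := by
        ext c
        rw [mem_negDiff]
        simp
      rw [h1]
      simp
    · push Not at hcard
      obtain ⟨X, Z, hXinj, hXF, hZX, hXX⟩ := exists_sunflower r (by omega) w F hw hcard
      set F1 : Finset (Finset V) := insert Z (F \ Finset.univ.image X) with hF1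
      have hF1card : F1.card ≤ n := by
        have h1 : (F \ Finset.univ.image X).card = F.card - r := by
          rw [Finset.card_sdiff_of_subset, Finset.card_image_of_injective _ hXinj]
          · simp
          · intro Y hY
            obtain ⟨i, -, rfl⟩ := Finset.mem_image.mp hY
            exact hXF i
        have h2 := Finset.card_insert_le Z (F \ Finset.univ.image X)
        have h3 : r ≤ F.card := by
          have h4 : (Finset.univ.image X).card ≤ F.card := by
            apply Finset.card_le_card
            intro Y hY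
            obtain ⟨i, -, rfl⟩ := Finset.mem_image.mp hY
            exact hXF i
          rw [Finset.card_image_of_injective _ hXinj] at h4
          simpa using h4
        rw [hF1]
        omega
      have hF1w : ∀ Y ∈ F1, Y.card ≤ w := by
        intro Y hY
        rcases Finset.mem_insert.mp hY with h | h
        · rw [h]
          have i0 : Fin r := ⟨0, by omega⟩
          exact (Finset.card_le_card (hZX i0)).trans (hw _ (hXF i0))
        · exact hw Y (Finset.mem_sdiff.mp h).1
      obtain ⟨F', hF'1, hF'2, hF'3, hF'4⟩ := ih F1 hF1card hF1w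
      refine ⟨F', hF'1, hF'2, ?_, ?_⟩
      · intro Y hY
        by_cases hYX : Y ∈ Finset.univ.image X
        · obtain ⟨i, -, rfl⟩ := Finset.mem_image.mp hYX
          obtain ⟨Y', hY', hsub⟩ := hF'3 Z (Finset.mem_insert_self _ _)
          exact ⟨Y', hY', hsub.trans (hZX i)⟩
        · exact hF'3 Y (Finset.mem_insert_of_mem (Finset.mem_sdiff.mpr ⟨hY, hYX⟩))
      · have hsub : negDiff k F' F ⊆ negDiff k F' F1 ∪ badSet k Z X := by
          intro c hc
          rw [mem_negDiff] at hc
          rw [Finset.mem_union]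
          by_cases h1 : negAcc F1 c
          · right
            rw [mem_badSet]
            obtain ⟨Y, hY, hYc⟩ := h1
            rcases Finset.mem_insert.mp hY with h | h
            · rw [h] at hYc
              refine ⟨hYc, ?_⟩
              intro i hi
              exact hc.2 ⟨X i, hXF i, hi⟩
            · exact absurd ⟨Y, (Finset.mem_sdiff.mp h).1, hYc⟩ hc.2
          · left
            rw [mem_negDiff]
            exact ⟨hc.1, h1⟩
        have hbad := card_badSet k w Z X (fun i j hij => (hXX i j hij).le)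
          (fun i => hw _ (hXF i))
        calc (negDiff k F' F).card * k ^ r
            ≤ ((negDiff k F' F1).card + (badSet k Z X).card) * k ^ r := by
              apply Nat.mul_le_mul_right
              exact (Finset.card_le_card hsub).trans (Finset.card_union_le _ _)
          _ = (negDiff k F' F1).card * k ^ r + (badSet k Z X).card * k ^ r := by ring
          _ ≤ n * ((w * w) ^ r * k ^ Fintype.card V) + (w * w) ^ r * k ^ Fintype.card V :=
              Nat.add_le_add hF'4 hbad
          _ = (n + 1) * ((w * w) ^ r * k ^ Fintype.card V) := by ring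

section approx

variable {ι : Type} (k C w r : ℕ) [NeZero C]
  (posX : (V → Fin C) → ι → Bool) (negX : (V → Fin k) → ι → Bool)

/-- the value of an argument, when only the gates `< i` are available -/
def argVal (g : ℕ → Gate ι) (i : ℕ) (a : Arg ι) (x : ι → Bool) : Bool :=
  a.val x (fun j => if j < i then value g x j else false)

lemma value_eq (g : ℕ → Gate ι) (x : ι → Bool) (i : ℕ) :
    value g x i = (g i).val x (fun k => if k < i then value g x k else false) := by
  rw [value]
  congr 1

lemma value_and (g : ℕ → Gate ι) (x : ι → Bool) (i : ℕ) (a b : Arg ι) (h : g i = .and a b) :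
    value g x i = (argVal g i a x && argVal g i b x) := by
  rw [value_eq, h]
  rfl

lemma value_or (g : ℕ → Gate ι) (x : ι → Bool) (i : ℕ) (a b : Arg ι) (h : g i = .or a b) :
    value g x i = (argVal g i a x || argVal g i b x) := by
  rw [value_eq, h]
  rfl

lemma value_not (g : ℕ → Gate ι) (x : ι → Bool) (i : ℕ) (a : Arg ι) (h : g i = .not a) :
    value g x i = !(argVal g i a x) := by
  rw [value_eq, h]
  rfl

/-- `F` is a small family which approximates the boolean function `f` outside of the exceptional
sets `E` and `E'` -/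
structure Approx (F : Finset (Finset V)) (E : Finset (V → Fin C)) (E' : Finset (V → Fin k))
    (f : (ι → Bool) → Bool) : Prop where
  card : F.card ≤ (r * w) ^ w
  size : ∀ X ∈ F, X.card ≤ w
  pos : ∀ d, d ∉ E → f (posX d) = true → posAcc F d
  neg : ∀ c, c ∉ E' → negAcc F c → f (negX c) = true

variable {k C w r posX negX}

lemma Approx.mono {F : Finset (Finset V)} {E E1 : Finset (V → Fin C)}
    {E' E1' : Finset (V → Fin k)} {f : (ι → Bool) → Bool} (h : Approx k C w r posX negX F E E' f)
    (hE : E ⊆ E1) (hE' : E' ⊆ E1') : Approx k C w r posX negX F E1 E1' f where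
  card := h.card
  size := h.size
  pos := fun d hd => h.pos d (fun hd' => hd (hE hd'))
  neg := fun c hc => h.neg c (fun hc' => hc (hE' hc'))

lemma approx_const (hr : 2 ≤ r) (hw : 1 ≤ w) (E : Finset (V → Fin C)) (E' : Finset (V → Fin k))
    (f : (ι → Bool) → Bool) (b : Bool) (h1 : ∀ d, f (posX d) = b) (h2 : ∀ c, f (negX c) = b) :
    ∃ F, Approx k C w r posX negX F E E' f := by
  have hM : 1 ≤ (r * w) ^ w := Nat.one_le_pow _ _ (by positivity)
  cases b with
  | true =>
    refine ⟨{∅}, ⟨by simpa using hM, by simp, ?_, ?_⟩⟩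
    · intro d _ _
      exact ⟨∅, by simp, by simp⟩
    · intro c _ _
      exact h2 c
  | false =>
    refine ⟨∅, ⟨by simp, by simp, ?_, ?_⟩⟩
    · intro d _ hd
      rw [h1 d] at hd
      exact absurd hd (by simp)
    · intro c _ hc
      obtain ⟨X, hX, -⟩ := hc
      simp at hX

lemma approx_or (hr : 2 ≤ r) (hw : 1 ≤ w) {F1 F2 : Finset (Finset V)} {E : Finset (V → Fin C)}
    {E' : Finset (V → Fin k)} {f1 f2 : (ι → Bool) → Bool}
    (h1 : Approx k C w r posX negX F1 E E' f1) (h2 : Approx k C w r posX negX F2 E E' f2) :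
    ∃ (F : Finset (Finset V)) (E1' : Finset (V → Fin k)),
      E1'.card * k ^ r ≤ ((r * w) ^ w) ^ 2 * ((w * w) ^ r * k ^ Fintype.card V) ∧
      Approx k C w r posX negX F E (E' ∪ E1') (fun x => f1 x || f2 x) := by
  have hM : 2 ≤ (r * w) ^ w := by
    calc 2 = 2 ^ 1 := by norm_num
      _ ≤ 2 ^ w := Nat.pow_le_pow_right (by norm_num) hw
      _ ≤ (r * w) ^ w := Nat.pow_le_pow_left (by nlinarith) _
  have hcard : (F1 ∪ F2).card ≤ ((r * w) ^ w) ^ 2 := by
    have := Finset.card_union_le F1 F2
    have h3 := h1.card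
    have h4 := h2.card
    nlinarith
  have hsize : ∀ X ∈ F1 ∪ F2, X.card ≤ w := by
    intro X hX
    rcases Finset.mem_union.mp hX with h | h
    · exact h1.size X h
    · exact h2.size X h
  obtain ⟨F, hF1, hF2, hF3, hF4⟩ := exists_pluck k w r hr _ _ hcard hsize
  refine ⟨F, negDiff k F (F1 ∪ F2), hF4, ⟨hF1, hF2, ?_, ?_⟩⟩
  · intro d hd hf
    have hf' : f1 (posX d) = true ∨ f2 (posX d) = true := by
      simpa using hf
    have h3 : posAcc (F1 ∪ F2) d := by
      rcases hf' with h | h
      · obtain ⟨X, hX, hXd⟩ := h1.pos d hd h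
        exact ⟨X, Finset.mem_union_left _ hX, hXd⟩
      · obtain ⟨X, hX, hXd⟩ := h2.pos d hd h
        exact ⟨X, Finset.mem_union_right _ hX, hXd⟩
    obtain ⟨X, hX, hXd⟩ := h3
    obtain ⟨Y, hY, hYX⟩ := hF3 X hX
    exact ⟨Y, hY, fun v hv => hXd v (hYX hv)⟩
  · intro c hc hcF
    rw [Finset.mem_union, mem_negDiff] at hc
    push Not at hc
    obtain ⟨X, hX, hXc⟩ := hc.2 hcF
    rcases Finset.mem_union.mp hX with h | h
    · have := h1.neg c hc.1 ⟨X, h, hXc⟩
      simp [this]
    · have := h2.neg c hc.1 ⟨X, h, hXc⟩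
      simp [this]

lemma approx_and (hr : 2 ≤ r) {F1 F2 : Finset (Finset V)} {E : Finset (V → Fin C)}
    {E' : Finset (V → Fin k)} {f1 f2 : (ι → Bool) → Bool}
    (h1 : Approx k C w r posX negX F1 E E' f1) (h2 : Approx k C w r posX negX F2 E E' f2) :
    ∃ (F : Finset (Finset V)) (E1 : Finset (V → Fin C)) (E1' : Finset (V → Fin k)),
      E1.card * C ^ (w + 1) ≤ ((r * w) ^ w) ^ 2 * C ^ Fintype.card V ∧
      E1'.card * k ^ r ≤ ((r * w) ^ w) ^ 2 * ((w * w) ^ r * k ^ Fintype.card V) ∧
      Approx k C w r posX negX F (E ∪ E1) (E' ∪ E1') (fun x => f1 x && f2 x) := by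
  classical
  set A : Finset (Finset V × Finset V) := F1 ×ˢ F2 with hA
  have hAcard : A.card ≤ ((r * w) ^ w) ^ 2 := by
    rw [hA, Finset.card_product, pow_two ((r * w) ^ w)]
    exact Nat.mul_le_mul h1.card h2.card
  set F0 : Finset (Finset V) := (A.image (fun p => p.1 ∪ p.2)).filter (fun X => X.card ≤ w)
    with hF0
  have hcard : F0.card ≤ ((r * w) ^ w) ^ 2 :=
    ((Finset.card_filter_le _ _).trans Finset.card_image_le).trans hAcard
  have hsize : ∀ X ∈ F0, X.card ≤ w := fun X hX => (Finset.mem_filter.mp hX).2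
  obtain ⟨F, hF1, hF2, hF3, hF4⟩ := exists_pluck k w r hr _ _ hcard hsize
  set E1 : Finset (V → Fin C) :=
    (A.filter (fun p => w < (p.1 ∪ p.2).card)).biUnion (fun p => zeroOn C (p.1 ∪ p.2)) with hE1
  refine ⟨F, E1, negDiff k F F0, ?_, hF4, ⟨hF1, hF2, ?_, ?_⟩⟩
  · have hone : ∀ p ∈ A.filter (fun p => w < (p.1 ∪ p.2).card),
        (zeroOn C (p.1 ∪ p.2)).card * C ^ (w + 1) ≤ C ^ Fintype.card V := by
      intro p hp
      have hp' := (Finset.mem_filter.mp hp).2
      rw [← card_zeroOn C (p.1 ∪ p.2)]
      apply Nat.mul_le_mul_left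
      exact Nat.pow_le_pow_right (Nat.pos_of_ne_zero (NeZero.ne C)) hp'
    calc E1.card * C ^ (w + 1)
        ≤ (∑ p ∈ A.filter (fun p => w < (p.1 ∪ p.2).card), (zeroOn C (p.1 ∪ p.2)).card)
            * C ^ (w + 1) := Nat.mul_le_mul_right _ Finset.card_biUnion_le
      _ = ∑ p ∈ A.filter (fun p => w < (p.1 ∪ p.2).card),
            (zeroOn C (p.1 ∪ p.2)).card * C ^ (w + 1) := by rw [Finset.sum_mul]
      _ ≤ ∑ _p ∈ A.filter (fun p => w < (p.1 ∪ p.2).card), C ^ Fintype.card V :=
          Finset.sum_le_sum hone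
      _ = (A.filter (fun p => w < (p.1 ∪ p.2).card)).card * C ^ Fintype.card V := by simp
      _ ≤ ((r * w) ^ w) ^ 2 * C ^ Fintype.card V :=
          Nat.mul_le_mul_right _ ((Finset.card_filter_le _ _).trans hAcard)
  · intro d hd hf
    have hf' : f1 (posX d) = true ∧ f2 (posX d) = true := by
      simpa using hf
    rw [Finset.mem_union] at hd
    push Not at hd
    obtain ⟨X, hX, hXd⟩ := h1.pos d hd.1 hf'.1
    obtain ⟨Y, hY, hYd⟩ := h2.pos d hd.1 hf'.2
    have hXY : (X, Y) ∈ A := Finset.mem_product.mpr ⟨hX, hY⟩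
    have hd0 : ∀ v ∈ X ∪ Y, d v = 0 := by
      intro v hv
      rcases Finset.mem_union.mp hv with h | h
      · exact hXd v h
      · exact hYd v h
    by_cases hc : (X ∪ Y).card ≤ w
    · have h3 : X ∪ Y ∈ F0 := by
        rw [hF0, Finset.mem_filter]
        exact ⟨Finset.mem_image.mpr ⟨(X, Y), hXY, rfl⟩, hc⟩
      obtain ⟨Y', hY', hsub⟩ := hF3 _ h3
      exact ⟨Y', hY', fun v hv => hd0 v (hsub hv)⟩
    · exfalso
      apply hd.2
      rw [hE1, Finset.mem_biUnion]
      refine ⟨(X, Y), Finset.mem_filter.mpr ⟨hXY, by simpa using hc⟩, ?_⟩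
      rw [mem_zeroOn]
      exact hd0
  · intro c hc hcF
    rw [Finset.mem_union, mem_negDiff] at hc
    push Not at hc
    obtain ⟨X, hX, hXc⟩ := hc.2 hcF
    rw [hF0, Finset.mem_filter, Finset.mem_image] at hX
    obtain ⟨⟨p, hp, hpX⟩, -⟩ := hX
    have hp' := Finset.mem_product.mp hp
    rw [← hpX] at hXc
    have h3 := h1.neg c hc.1 ⟨p.1, hp'.1, hXc.mono (by simp)⟩
    have h4 := h2.neg c hc.1 ⟨p.2, hp'.2, hXc.mono (by simp)⟩
    simp [h3, h4]

/-- the approximation lemma -/
theorem exists_approx (hr : 2 ≤ r) (hw : 1 ≤ w) (g : ℕ → Gate ι)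
    (hinp : ∀ e : ι, ∃ F, Approx k C w r posX negX F ∅ ∅ (fun x => x e)) (i : ℕ)
    (hnot : ∀ j < i, ∀ a, g j = .not a → ∃ b, (∀ d, value g (posX d) j = b) ∧
      ∀ c, value g (negX c) j = b) :
    ∃ (E : Finset (V → Fin C)) (E' : Finset (V → Fin k)),
      E.card * C ^ (w + 1) ≤ i * (((r * w) ^ w) ^ 2 * C ^ Fintype.card V) ∧
      E'.card * k ^ r ≤ i * (((r * w) ^ w) ^ 2 * ((w * w) ^ r * k ^ Fintype.card V)) ∧
      ∀ j < i, ∃ F, Approx k C w r posX negX F E E' (fun x => value g x j) := by
  induction i with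
  | zero =>
    exact ⟨∅, ∅, by simp, by simp, fun j hj => absurd hj (by omega)⟩
  | succ i ih =>
    obtain ⟨E, E', hE, hE', happ⟩ := ih (fun j hj => hnot j (by omega))
    -- arguments
    have harg : ∀ a : Arg ι, ∃ F, Approx k C w r posX negX F E E' (argVal g i a) := by
      intro a
      cases a with
      | input e =>
        obtain ⟨F, hF⟩ := hinp e
        exact ⟨F, hF.mono (Finset.empty_subset _) (Finset.empty_subset _)⟩
      | const b =>
        exact approx_const hr hw E E' _ b (fun _ => rfl) (fun _ => rfl)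
      | gate m =>
        by_cases hm : m < i
        · obtain ⟨F, hF⟩ := happ m hm
          refine ⟨F, ?_⟩
          have : (argVal g i (.gate m)) = fun x => value g x m := by
            funext x
            simp [argVal, Arg.val, hm]
          rw [this]
          exact hF
        · have : (argVal g i (.gate m)) = fun _ => false := by
            funext x
            simp [argVal, Arg.val, hm]
          rw [this]
          exact approx_const hr hw E E' _ false (fun _ => rfl) (fun _ => rfl)
    rcases hgi : g i with ⟨a, b⟩ | ⟨a, b⟩ | a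
    · obtain ⟨F1, hF1⟩ := harg a
      obtain ⟨F2, hF2⟩ := harg b
      obtain ⟨F, E1, E1', h1, h2, hF⟩ := approx_and hr hF1 hF2
      refine ⟨E ∪ E1, E' ∪ E1', ?_, ?_, ?_⟩
      · calc (E ∪ E1).card * C ^ (w + 1) ≤ (E.card + E1.card) * C ^ (w + 1) :=
              Nat.mul_le_mul_right _ (Finset.card_union_le _ _)
          _ = E.card * C ^ (w + 1) + E1.card * C ^ (w + 1) := by ring
          _ ≤ _ := by
              rw [add_mul i 1, one_mul]
              exact Nat.add_le_add hE h1
      · calc (E' ∪ E1').card * k ^ r ≤ (E'.card + E1'.card) * k ^ r :=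
              Nat.mul_le_mul_right _ (Finset.card_union_le _ _)
          _ = E'.card * k ^ r + E1'.card * k ^ r := by ring
          _ ≤ _ := by
              rw [add_mul i 1, one_mul]
              exact Nat.add_le_add hE' h2
      · intro j hj
        rcases Nat.lt_succ_iff_lt_or_eq.mp hj with h | h
        · obtain ⟨F', hF'⟩ := happ j h
          exact ⟨F', hF'.mono Finset.subset_union_left Finset.subset_union_left⟩
        · subst h
          refine ⟨F, ?_⟩
          have : (fun x => value g x j) = fun x => argVal g j a x && argVal g j b x := by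
            funext x
            exact value_and g x j a b hgi
          rw [this]
          exact hF
    · obtain ⟨F1, hF1⟩ := harg a
      obtain ⟨F2, hF2⟩ := harg b
      obtain ⟨F, E1', h2, hF⟩ := approx_or hr hw hF1 hF2
      refine ⟨E, E' ∪ E1', ?_, ?_, ?_⟩
      · calc E.card * C ^ (w + 1) ≤ _ := hE
          _ ≤ _ := Nat.mul_le_mul_right _ (Nat.le_succ i)
      · calc (E' ∪ E1').card * k ^ r ≤ (E'.card + E1'.card) * k ^ r :=
              Nat.mul_le_mul_right _ (Finset.card_union_le _ _)
          _ = E'.card * k ^ r + E1'.card * k ^ r := by ring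
          _ ≤ _ := by
              rw [add_mul i 1, one_mul]
              exact Nat.add_le_add hE' h2
      · intro j hj
        rcases Nat.lt_succ_iff_lt_or_eq.mp hj with h | h
        · obtain ⟨F', hF'⟩ := happ j h
          exact ⟨F', hF'.mono subset_rfl Finset.subset_union_left⟩
        · subst h
          refine ⟨F, ?_⟩
          have : (fun x => value g x j) = fun x => argVal g j a x || argVal g j b x := by
            funext x
            exact value_or g x j a b hgi
          rw [this]
          exact hF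
    · obtain ⟨b, hb1, hb2⟩ := hnot i (Nat.lt_succ_self i) a hgi
      refine ⟨E, E', ?_, ?_, ?_⟩
      · exact hE.trans (Nat.mul_le_mul_right _ (Nat.le_succ i))
      · exact hE'.trans (Nat.mul_le_mul_right _ (Nat.le_succ i))
      · intro j hj
        rcases Nat.lt_succ_iff_lt_or_eq.mp hj with h | h
        · exact happ j h
        · subst h
          exact approx_const hr hw E E' _ b hb1 hb2

end approx

end Pool.Agent.Helper6.Neg
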