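import Mathlib

/-!
Boolean circuits over AND, OR (fan-in 2) and NOT, as straight-line programs.
-/

set_option autoImplicit false

namespace Pool.Agent.Helper6.Neg

/-- An argument of a gate: an input variable, a constant, or (the value of) an earlier gate. -/
inductive Arg (ι : Type) : Type
  | input (i : ι) : Arg ι
  | const (b : Bool) : Arg ι
  | gate (k : ℕ) : Arg ι

/-- A gate: AND or OR of two arguments, or NOT of one argument. -/
inductive Gate (ι : Type) : Type
  | and (a b : Arg ι) : Gate ι
  | or (a b : Arg ι) : Gate ι
  | not (a : Arg ι) : Gate ι

variable {ι : Type}

/-- The value of an argument, given the input `x` and the values `v` of the gates. -/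
def Arg.val (x : ι → Bool) (v : ℕ → Bool) : Arg ι → Bool
  | .input i => x i
  | .const b => b
  | .gate k => v k

/-- The value of a gate, given the input `x` and the values `v` of the gates. -/
def Gate.val (x : ι → Bool) (v : ℕ → Bool) : Gate ι → Bool
  | .and a b => a.val x v && b.val x v
  | .or a b => a.val x v || b.val x v
  | .not a => !(a.val x v)

/-- The values of the gates `g 0, g 1, g 2, ...` on the input `x`.  Only values of earlier gates can
be used: an argument `gate k` of the gate `g i` has the value of `g k` if `k < i`, and is `false`
if `i ≤ k`. -/
def value (g : ℕ → Gate ι) (x : ι → Bool) (i : ℕ) : Bool :=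
  (g i).val x (fun k => if _h : k < i then value g x k else false)
termination_by i

/-- A circuit: a number `size` of gates, the gates `gate 0, ..., gate (size - 1)`, and the argument
`out` which is the output of the circuit. -/
structure Circuit (ι : Type) : Type where
  /-- the number of gates -/
  size : ℕ
  /-- the gates; only those of index `< size` are used -/
  gate : ℕ → Gate ι
  /-- the output -/
  out : Arg ι

/-- The output of the circuit on the input `x`. -/
def Circuit.eval (C : Circuit ι) (x : ι → Bool) : Bool :=
  C.out.val x (fun k => if k < C.size then value C.gate x k else false)

/-- The gate is a NOT gate. -/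
def Gate.isNot : Gate ι → Bool
  | .not _ => true
  | _ => false

/-- The number of NOT gates of the circuit. -/
def Circuit.nots (C : Circuit ι) : ℕ :=
  ((Finset.range C.size).filter (fun i => (C.gate i).isNot = true)).card

/-- The input of a circuit given by a graph on `V`: the adjacency matrix. -/
noncomputable def adjInput {V : Type} (G : SimpleGraph V) : V × V → Bool :=
  fun p => by
    classical
    exact decide (G.Adj p.1 p.2)

lemma adjInput_eq_true {V : Type} (G : SimpleGraph V) (p : V × V) :
    adjInput G p = true ↔ G.Adj p.1 p.2 := by
  unfold adjInput
  simp

end Pool.Agent.Helper6.Neg
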