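import Pool.Agent.Helper6.Neg.Tail

/-!
Assembly: randomised circuits with few NOT gates do not decide clique.
-/

set_option autoImplicit false
set_option linter.unusedSectionVars false

namespace Pool.Agent.Helper6.Neg

/-- the gates of the circuit, followed by the negated output -/
def extGate {ι : Type} (C : Circuit ι) (i : ℕ) : Gate ι :=
  if i < C.size then C.gate i else .not C.out

lemma value_extGate {ι : Type} (C : Circuit ι) (x : ι → Bool) (i : ℕ) (hi : i < C.size) :
    value (extGate C) x i = value C.gate x i := by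
  induction i using Nat.strong_induction_on with
  | _ i ih =>
    rw [value_eq, value_eq C.gate]
    have h1 : extGate C i = C.gate i := if_pos hi
    rw [h1]
    congr 1
    funext k
    by_cases hk : k < i
    · rw [if_pos hk, if_pos hk, ih k hk (by omega)]
    · rw [if_neg hk, if_neg hk]

lemma value_extGate_size {ι : Type} (C : Circuit ι) (x : ι → Bool) :
    value (extGate C) x C.size = !(C.eval x) := by
  have h1 : extGate C C.size = .not C.out := if_neg (lt_irrefl _)
  rw [value_eq, h1]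
  show (!(C.out.val x _)) = !(C.out.val x _)
  congr 2
  funext k
  by_cases hk : k < C.size
  · rw [if_pos hk, if_pos hk, value_extGate C x k hk]
  · rw [if_neg hk, if_neg hk]

lemma card_active_le {V : Type} [Fintype V] [DecidableEq V] (C : Circuit (V × V))
    (A : SimpleGraph V) (W : Finset V) :
    (active (extGate C) (C.size + 1) A W).card ≤ C.nots + 1 := by
  have h1 : active (extGate C) (C.size + 1) A W ⊆
      insert C.size ((Finset.range C.size).filter (fun i => (C.gate i).isNot = true)) := by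
    intro i hi
    rw [mem_active] at hi
    rw [Finset.mem_insert, Finset.mem_filter, Finset.mem_range]
    by_cases h : i < C.size
    · right
      refine ⟨h, ?_⟩
      have h2 : extGate C i = C.gate i := if_pos h
      rw [← h2]
      exact hi.2.1
    · left
      omega
  refine (Finset.card_le_card h1).trans ?_
  exact (Finset.card_insert_le _ _)

lemma ind_eq_one {V : Type} [Fintype V] [DecidableEq V] (C : Circuit (V × V))
    (A : SimpleGraph V) (W : Finset V)
    (h : C.eval (adjInput A) ≠ C.eval (adjInput (A ⊔ cliqueOn W))) :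
    ind (extGate C) (C.size + 1) A W = 1 := by
  unfold ind
  rw [if_pos]
  refine ⟨C.size, ?_⟩
  rw [mem_active]
  refine ⟨Nat.lt_succ_self _, ?_, ?_⟩
  · have h1 : extGate C C.size = .not C.out := if_neg (lt_irrefl _)
    rw [h1]
    rfl
  · intro hc
    have h2 := hc A (A ⊔ cliqueOn W) (inReg_bot A W) (inReg_top A W)
    rw [value_extGate_size, value_extGate_size] at h2
    apply h
    simpa using h2

lemma ind_nonneg {V : Type} [Fintype V] [DecidableEq V] (g : ℕ → Gate (V × V)) (N : ℕ)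
    (A : SimpleGraph V) (W : Finset V) : 0 ≤ ind g N A W := by
  unfold ind
  split_ifs <;> norm_num

/-- the numerical conditions for one step -/
lemma numeric_step (w N : ℕ) (hw : 100 ≤ w) (hN : N ≤ 2 ^ w) :
    ((N : ℝ) * (((5 * w * w : ℕ) : ℝ) ^ w) ^ 2 ≤ (2 / (w : ℝ)) * ((100 * w ^ 4 : ℕ) : ℝ) ^ (w + 1)) ∧
    ((N : ℝ) * (((5 * w * w : ℕ) : ℝ) ^ w) ^ 2 * ((w * w : ℕ) : ℝ) ^ (5 * w) /
      ((w ^ 3 : ℕ) : ℝ) ^ (5 * w) + ((w * w : ℕ) : ℝ) / ((w ^ 3 : ℕ) : ℝ) ≤ 2 / (w : ℝ)) := by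
  have hw1 : (100 : ℝ) ≤ w := by exact_mod_cast hw
  have hw0 : (0 : ℝ) < w := by linarith
  have hNr : (N : ℝ) ≤ 2 ^ w := by exact_mod_cast hN
  have hM : (((5 * w * w : ℕ) : ℝ) ^ w) ^ 2 = (25 : ℝ) ^ w * ((w : ℝ) ^ 4) ^ w := by
    push_cast
    rw [← pow_mul, mul_comm w 2, pow_mul, ← mul_pow]
    congr 1
    ring
  have h50 : (2 : ℝ) ^ w * 25 ^ w = 50 ^ w := by
    rw [← mul_pow]
    norm_num
  constructor
  · rw [hM]
    push_cast
    calc (N : ℝ) * ((25 : ℝ) ^ w * ((w : ℝ) ^ 4) ^ w)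
        ≤ 2 ^ w * ((25 : ℝ) ^ w * ((w : ℝ) ^ 4) ^ w) := by gcongr
      _ = 50 ^ w * ((w : ℝ) ^ 4) ^ w := by rw [← mul_assoc, h50]
      _ ≤ 100 ^ w * ((w : ℝ) ^ 4) ^ w := by gcongr; norm_num
      _ = 1 * (100 * (w : ℝ) ^ 4) ^ w := by rw [mul_pow, one_mul]
      _ ≤ (2 / (w : ℝ) * (100 * (w : ℝ) ^ 4)) * (100 * (w : ℝ) ^ 4) ^ w := by
          apply mul_le_mul_of_nonneg_right _ (by positivity)
          have h1 : 2 / (w : ℝ) * (100 * (w : ℝ) ^ 4) = 200 * (w : ℝ) ^ 3 := by
            field_simp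
            ring
          rw [h1]
          have h2 : (1 : ℝ) ≤ (w : ℝ) ^ 3 := one_le_pow₀ (by linarith)
          linarith
      _ = 2 / (w : ℝ) * (100 * (w : ℝ) ^ 4) ^ (w + 1) := by rw [pow_succ]; ring
  · rw [hM]
    push_cast
    have h1 : ((w : ℝ) * w) / (w : ℝ) ^ 3 = 1 / w := by
      field_simp
    have h2 : ((w : ℝ) * w) ^ (5 * w) / ((w : ℝ) ^ 3) ^ (5 * w) = 1 / ((w : ℝ) ^ 5) ^ w := by
      rw [← div_pow, h1, one_div, inv_pow, pow_mul, one_div]
    have h3 : (N : ℝ) * ((25 : ℝ) ^ w * ((w : ℝ) ^ 4) ^ w) * ((w : ℝ) * w) ^ (5 * w) /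
        ((w : ℝ) ^ 3) ^ (5 * w) ≤ 1 / (w : ℝ) := by
      rw [mul_div_assoc, h2]
      calc (N : ℝ) * ((25 : ℝ) ^ w * ((w : ℝ) ^ 4) ^ w) * (1 / ((w : ℝ) ^ 5) ^ w)
          ≤ (2 : ℝ) ^ w * ((25 : ℝ) ^ w * ((w : ℝ) ^ 4) ^ w) * (1 / ((w : ℝ) ^ 5) ^ w) := by
            gcongr
        _ = (50 / (w : ℝ)) ^ w := by
            rw [← mul_assoc, h50, div_pow]
            have h4 : ((w : ℝ) ^ 5) ^ w = ((w : ℝ) ^ 4) ^ w * (w : ℝ) ^ w := by
              rw [← mul_pow]
              congr 1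
            rw [h4]
            field_simp
        _ ≤ ((1 : ℝ) / 2) ^ w := by
            apply pow_le_pow_left₀ (by positivity)
            rw [div_le_div_iff₀ hw0 (by norm_num)]
            linarith
        _ = (1 : ℝ) / 2 ^ w := by rw [one_div, one_div, inv_pow]
        _ ≤ 1 / (w : ℝ) := by
            apply one_div_le_one_div_of_le hw0
            exact_mod_cast (Nat.lt_two_pow_self (n := w)).le
    rw [h1]
    calc _ ≤ 1 / (w : ℝ) + 1 / w := by linarith
      _ = 2 / w := by ring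

/-- the main inequality -/
theorem main_ineq (n s t w T b : ℕ) (hw : 100 ≤ w) (hs : 0 < s)
    (hb : 2 * s * b ≤ n) {Ω : Type} [Fintype Ω] (p : Ω → ℝ) (C : Ω → Circuit (Fin n × Fin n))
    (hp0 : ∀ ω, 0 ≤ p ω) (hp1 : ∑ ω, p ω = 1) (hnots : ∀ ω, 0 < p ω → (C ω).nots ≤ t)
    (hsize : ∀ ω, 0 < p ω → (C ω).size ≤ 2 ^ w) (η : ℝ) (hη : 0 ≤ η)
    (hrej : ∀ G : SimpleGraph (Fin n), G.Colorable ((w ^ 3) ^ T) →
      η ≤ ∑ ω, p ω * (if (C ω).eval (adjInput G) = false then 1 else 0))
    (hacc : ∀ G : SimpleGraph (Fin n), ¬ G.CliqueFree s →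
      η ≤ ∑ ω, p ω * (if (C ω).eval (adjInput G) = true then 1 else 0)) :
    2 * η ≤ 1 + (T / (w : ℝ) + (16 / 15 : ℝ) ^ (t + 1) * (31 / 32 : ℝ) ^ T)
      + 2 * η * (2 * (1 - 1 / ((100 * w ^ 4 : ℕ) : ℝ) ^ T) ^ b) := by
  classical
  have hwpos : 0 < w := by omega
  have hkne : NeZero (w ^ 3) := ⟨by positivity⟩
  have hDne : NeZero (100 * w ^ 4) := ⟨by positivity⟩
  set k := w ^ 3 with hkdef
  set D := 100 * w ^ 4 with hDdef
  have hsr : (0 : ℝ) < s := by exact_mod_cast hs
  have hw0 : (0 : ℝ) < w := by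
    have : (100 : ℝ) ≤ w := by exact_mod_cast hw
    linarith
  -- a lower bound on reachable regions
  set Ψ : SimpleGraph (Fin n) → Finset (Fin n) → ℝ := fun A W =>
    (1 + ∑ ω, p ω * ind (extGate (C ω)) ((C ω).size + 1) A W)
      + ∑ ω ∈ ({()} : Finset Unit), (2 * η) * (if W.card < s then 1 else 0) with hΨ
  have hΦΨ : ∀ (A : SimpleGraph (Fin n)) (W : Finset (Fin n)), A.Colorable (k ^ T) →
      2 * η ≤ Ψ A W := by
    intro A W hA
    have hind0 : 0 ≤ ∑ ω, p ω * ind (extGate (C ω)) ((C ω).size + 1) A W :=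
      Finset.sum_nonneg (fun ω _ => mul_nonneg (hp0 ω) (ind_nonneg _ _ _ _))
    by_cases hW : W.card < s
    · rw [hΨ]
      simp only [if_pos hW, Finset.sum_singleton]
      linarith
    · rw [hΨ]
      simp only [if_neg hW, Finset.sum_singleton]
      push Not at hW
      have h2 : ¬ (A ⊔ cliqueOn W).CliqueFree s := by
        intro hfree
        obtain ⟨W', hW'W, hW'card⟩ := Finset.exists_subset_card_eq hW
        apply hfree W'
        rw [SimpleGraph.isNClique_iff]
        refine ⟨?_, hW'card⟩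
        intro u hu v hv huv
        exact Or.inr ⟨hW'W hu, hW'W hv, huv⟩
      have h3 := hrej A hA
      have h4 := hacc _ h2
      have h5 : ∀ ω, (if (C ω).eval (adjInput A) = false then (1 : ℝ) else 0)
          + (if (C ω).eval (adjInput (A ⊔ cliqueOn W)) = true then 1 else 0)
          ≤ 1 + ind (extGate (C ω)) ((C ω).size + 1) A W := by
        intro ω
        have hi0 := ind_nonneg (extGate (C ω)) ((C ω).size + 1) A W
        by_cases hc1 : (C ω).eval (adjInput A) = false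
        · by_cases hc2 : (C ω).eval (adjInput (A ⊔ cliqueOn W)) = true
          · have h6 : (C ω).eval (adjInput A) ≠ (C ω).eval (adjInput (A ⊔ cliqueOn W)) := by
              rw [hc1, hc2]
              decide
            rw [ind_eq_one (C ω) A W h6, if_pos hc1, if_pos hc2]
          · rw [if_pos hc1, if_neg hc2]
            linarith
        · rw [if_neg hc1]
          split_ifs <;> linarith
      have h6 : ∑ ω, p ω * ((if (C ω).eval (adjInput A) = false then (1 : ℝ) else 0)
          + (if (C ω).eval (adjInput (A ⊔ cliqueOn W)) = true then 1 else 0))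
          ≤ ∑ ω, p ω * (1 + ind (extGate (C ω)) ((C ω).size + 1) A W) :=
        Finset.sum_le_sum (fun ω _ => mul_le_mul_of_nonneg_left (h5 ω) (hp0 ω))
      simp only [mul_add, Finset.sum_add_distrib, mul_one, hp1] at h6
      linarith
  -- averaging
  have hav1 : 2 * η ≤ av k D T Ψ ⊥ Finset.univ := by
    have := av_mono k D (fun T' (A : SimpleGraph (Fin n)) (_ : Finset (Fin n)) =>
      ∃ j, A.Colorable j ∧ j * k ^ T' ≤ k ^ T) (by
        rintro T' A W c ⟨j, hj, hjk⟩
        refine ⟨j * k, colorable_partOn hj W c, ?_⟩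
        calc j * k * k ^ T' = j * k ^ (T' + 1) := by ring
          _ ≤ k ^ T := hjk) (by
        rintro T' A W d ⟨j, hj, hjk⟩
        refine ⟨j, hj, ?_⟩
        refine le_trans ?_ hjk
        apply Nat.mul_le_mul_left
        exact Nat.pow_le_pow_right (Nat.pos_of_ne_zero (NeZero.ne k)) (Nat.le_succ T'))
      (fun _ _ => 2 * η) Ψ (by
        rintro A W ⟨j, hj, hjk⟩
        apply hΦΨ
        rw [pow_zero, mul_one] at hjk
        exact hj.mono hjk) T (⊥ : SimpleGraph (Fin n)) Finset.univ (by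
        refine ⟨1, ?_, by simp⟩
        refine ⟨SimpleGraph.Coloring.mk (fun _ => 0) ?_⟩
        intro u v huv
        exact absurd huv (by simp))
    rwa [av_const] at this
  have hav3 : av k D T Ψ ⊥ Finset.univ
      = (1 + ∑ ω, p ω * av k D T (ind (extGate (C ω)) ((C ω).size + 1)) ⊥ Finset.univ)
        + 2 * η * av k D T (fun _ W => if W.card < s then 1 else 0) (⊥ : SimpleGraph (Fin n))
          Finset.univ := by
    rw [hΨ, av_add, av_add, av_const, av_sum,
      av_sum k D ({()} : Finset Unit) (fun _ => 2 * η) T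
        (fun _ _ W => if W.card < s then 1 else 0)]
    simp
  have hind : ∀ ω, p ω * av k D T (ind (extGate (C ω)) ((C ω).size + 1)) ⊥ Finset.univ
      ≤ p ω * (T / (w : ℝ) + (16 / 15 : ℝ) ^ (t + 1) * (31 / 32 : ℝ) ^ T) := by
    intro ω
    rcases (hp0 ω).eq_or_lt with h0 | hpos
    · rw [← h0]
      simp
    · apply mul_le_mul_of_nonneg_left _ (hp0 ω)
      obtain ⟨hn1, hn2⟩ := numeric_step w (C ω).size hw (hsize ω hpos)
      refine (av_ind_le k D w (5 * w) (by omega) (by omega) (extGate (C ω)) (C ω).size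
        (2 / (w : ℝ)) (by positivity) hn1 hn2 T ⊥ Finset.univ).trans ?_
      have h1 : (T : ℝ) * (2 / (w : ℝ)) / 2 = T / (w : ℝ) := by ring
      rw [h1]
      have h2 : (active (extGate (C ω)) ((C ω).size + 1) ⊥ Finset.univ).card ≤ t + 1 :=
        (card_active_le (C ω) ⊥ Finset.univ).trans (Nat.add_le_add_right (hnots ω hpos) 1)
      gcongr
      norm_num
  obtain ⟨B, hB1, hB2⟩ := exists_blocks n (2 * s) b hb
  have hsmall : av k D T (fun _ W => if W.card < s then 1 else 0)
      (⊥ : SimpleGraph (Fin n)) Finset.univ ≤ 2 * (1 - 1 / (D : ℝ) ^ T) ^ b := by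
    refine (av_small_le k D s hs B hB1 T ⊥ Finset.univ).trans ?_
    rw [div_le_iff₀ hsr]
    have hD1 : (1 : ℝ) ≤ (D : ℝ) ^ T := by
      apply one_le_pow₀
      exact_mod_cast Nat.pos_of_ne_zero (NeZero.ne D)
    have hx0 : (0 : ℝ) ≤ 1 - 1 / (D : ℝ) ^ T := by
      have : 1 / (D : ℝ) ^ T ≤ 1 := by
        rw [div_le_one (by positivity)]
        exact hD1
      linarith
    have hx1 : (1 : ℝ) - 1 / (D : ℝ) ^ T ≤ 1 := by
      have : 0 ≤ 1 / (D : ℝ) ^ T := by positivity
      linarith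
    calc ∑ i, (1 - 1 / (D : ℝ) ^ T) ^ (Finset.univ ∩ B i).card
        ≤ ∑ _i : Fin (2 * s), (1 - 1 / (D : ℝ) ^ T) ^ b := by
          apply Finset.sum_le_sum
          intro i _
          apply pow_le_pow_of_le_one hx0 hx1
          rw [Finset.univ_inter]
          exact hB2 i
      _ = 2 * (1 - 1 / (D : ℝ) ^ T) ^ b * s := by
          rw [Finset.sum_const, Finset.card_univ, Fintype.card_fin, nsmul_eq_mul]
          push_cast
          ring
  have hsum : ∑ ω, p ω * av k D T (ind (extGate (C ω)) ((C ω).size + 1)) ⊥ Finset.univ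
      ≤ T / (w : ℝ) + (16 / 15 : ℝ) ^ (t + 1) * (31 / 32 : ℝ) ^ T := by
    calc _ ≤ ∑ ω, p ω * (T / (w : ℝ) + (16 / 15 : ℝ) ^ (t + 1) * (31 / 32 : ℝ) ^ T) :=
          Finset.sum_le_sum (fun ω _ => hind ω)
      _ = T / (w : ℝ) + (16 / 15 : ℝ) ^ (t + 1) * (31 / 32 : ℝ) ^ T := by
          rw [← Finset.sum_mul, hp1, one_mul]
  rw [hav3] at hav1
  have h7 : 2 * η * av k D T (fun _ W => if W.card < s then 1 else 0)
      (⊥ : SimpleGraph (Fin n)) Finset.univ ≤ 2 * η * (2 * (1 - 1 / (D : ℝ) ^ T) ^ b) :=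
    mul_le_mul_of_nonneg_left hsmall (by linarith)
  linarith

end Pool.Agent.Helper6.Neg
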