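import Pool.Agent.Helper6.Neg.Region

/-!
The random process of regions.
-/

set_option autoImplicit false
set_option linter.unusedSectionVars false

namespace Pool.Agent.Helper6.Neg

variable {V : Type} [Fintype V] [DecidableEq V]

/-- the average of `φ` over the final region of the random process with `T` steps: in every step,
with probability `1/2`, a random `k`-partite graph on `W` is added to `A`, and with probability
`1/2` the set `W` is replaced by a random subset of density `1/C` -/
noncomputable def av (k C : ℕ) [NeZero C] :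
    ℕ → (SimpleGraph V → Finset V → ℝ) → SimpleGraph V → Finset V → ℝ
  | 0, φ, A, W => φ A W
  | T + 1, φ, A, W =>
    ((∑ c : V → Fin k, av k C T φ (A ⊔ partOn W c) W) / (k : ℝ) ^ Fintype.card V
      + (∑ d : V → Fin C, av k C T φ A (W.filter (fun v => d v = 0))) /
        (C : ℝ) ^ Fintype.card V) / 2

section basic

variable (k C : ℕ) [NeZero k] [NeZero C]

lemma card_fun_real (k : ℕ) :
    ((Finset.univ : Finset (V → Fin k)).card : ℝ) = (k : ℝ) ^ Fintype.card V := by
  rw [Finset.card_univ, Fintype.card_fun, Fintype.card_fin]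
  push_cast
  rfl

lemma pow_card_pos (k : ℕ) [NeZero k] : (0 : ℝ) < (k : ℝ) ^ Fintype.card V := by
  have : (0 : ℝ) < k := by exact_mod_cast Nat.pos_of_ne_zero (NeZero.ne k)
  positivity

/-- an average is at most a bound for all terms -/
lemma avg_le (k : ℕ) [NeZero k] (f : (V → Fin k) → ℝ) (b : ℝ) (h : ∀ c, f c ≤ b) :
    (∑ c, f c) / (k : ℝ) ^ Fintype.card V ≤ b := by
  rw [div_le_iff₀ (pow_card_pos k)]
  calc ∑ c, f c ≤ ∑ _c : V → Fin k, b := Finset.sum_le_sum (fun c _ => h c)
    _ = b * (k : ℝ) ^ Fintype.card V := by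
        rw [Finset.sum_const, nsmul_eq_mul, card_fun_real, mul_comm]

lemma avg_const (k : ℕ) [NeZero k] (b : ℝ) :
    (∑ _c : V → Fin k, b) / (k : ℝ) ^ Fintype.card V = b := by
  rw [Finset.sum_const, nsmul_eq_mul, card_fun_real]
  field_simp [(pow_card_pos (V := V) k).ne']

lemma av_mono (P : ℕ → SimpleGraph V → Finset V → Prop)
    (hU : ∀ T A W (c : V → Fin k), P (T + 1) A W → P T (A ⊔ partOn W c) W)
    (hD : ∀ T A W (d : V → Fin C), P (T + 1) A W → P T A (W.filter (fun v => d v = 0)))
    (φ ψ : SimpleGraph V → Finset V → ℝ) (h0 : ∀ A W, P 0 A W → φ A W ≤ ψ A W) (T : ℕ)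
    (A : SimpleGraph V) (W : Finset V) (hP : P T A W) : av k C T φ A W ≤ av k C T ψ A W := by
  induction T generalizing A W with
  | zero => exact h0 A W hP
  | succ T ih =>
    unfold av
    have h1 : ∑ c : V → Fin k, av k C T φ (A ⊔ partOn W c) W
        ≤ ∑ c : V → Fin k, av k C T ψ (A ⊔ partOn W c) W :=
      Finset.sum_le_sum (fun c _ => ih _ _ (hU T A W c hP))
    have h2 : ∑ d : V → Fin C, av k C T φ A (W.filter (fun v => d v = 0))
        ≤ ∑ d : V → Fin C, av k C T ψ A (W.filter (fun v => d v = 0)) :=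
      Finset.sum_le_sum (fun d _ => ih _ _ (hD T A W d hP))
    have h3 := pow_card_pos (V := V) k
    have h4 := pow_card_pos (V := V) C
    gcongr

lemma av_const (T : ℕ) (b : ℝ) (A : SimpleGraph V) (W : Finset V) :
    av k C T (fun _ _ => b) A W = b := by
  induction T generalizing A W with
  | zero => rfl
  | succ T ih =>
    unfold av
    simp only [ih]
    rw [avg_const, avg_const]
    ring

lemma av_add (T : ℕ) (φ ψ : SimpleGraph V → Finset V → ℝ) (A : SimpleGraph V) (W : Finset V) :
    av k C T (fun A W => φ A W + ψ A W) A W = av k C T φ A W + av k C T ψ A W := by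
  induction T generalizing A W with
  | zero => rfl
  | succ T ih =>
    unfold av
    simp only [ih, Finset.sum_add_distrib]
    ring

lemma av_sum {Ω : Type} (s : Finset Ω) (p : Ω → ℝ) (T : ℕ)
    (φ : Ω → SimpleGraph V → Finset V → ℝ) (A : SimpleGraph V) (W : Finset V) :
    av k C T (fun A W => ∑ ω ∈ s, p ω * φ ω A W) A W = ∑ ω ∈ s, p ω * av k C T (φ ω) A W := by
  induction T generalizing A W with
  | zero => rfl
  | succ T ih =>
    unfold av
    simp only [ih]
    rw [Finset.sum_comm, Finset.sum_comm (s := Finset.univ) (t := s)]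
    simp only [← Finset.mul_sum]
    rw [Finset.sum_div, Finset.sum_div, ← Finset.sum_add_distrib, Finset.sum_div]
    apply Finset.sum_congr rfl
    intro ω _
    ring

end basic

/-- the NOT gates which are not constant on the region -/
noncomputable def active (g : ℕ → Gate (V × V)) (N : ℕ) (A : SimpleGraph V) (W : Finset V) :
    Finset ℕ := by
  classical
  exact (Finset.range N).filter (fun i => (g i).isNot = true ∧ ¬ ConstOn g A W i)

lemma mem_active (g : ℕ → Gate (V × V)) (N : ℕ) (A : SimpleGraph V) (W : Finset V) (i : ℕ) :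
    i ∈ active g N A W ↔ i < N ∧ (g i).isNot = true ∧ ¬ ConstOn g A W i := by
  unfold active
  simp

lemma ConstOn.mono {g : ℕ → Gate (V × V)} {A A' : SimpleGraph V} {W W' : Finset V} {i : ℕ}
    (h : ConstOn g A W i) (hsub : ∀ G, InReg A' W' G → InReg A W G) : ConstOn g A' W' i :=
  fun G G' hG hG' => h G G' (hsub G hG) (hsub G' hG')

lemma active_mono (g : ℕ → Gate (V × V)) (N : ℕ) {A A' : SimpleGraph V} {W W' : Finset V}
    (hsub : ∀ G, InReg A' W' G → InReg A W G) : active g N A' W' ⊆ active g N A W := by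
  intro i hi
  rw [mem_active] at hi ⊢
  exact ⟨hi.1, hi.2.1, fun h => hi.2.2 (h.mono hsub)⟩

lemma filter_sub {C : ℕ} [NeZero C] (A : SimpleGraph V) (W : Finset V) (d : V → Fin C) (G : SimpleGraph V)
    (h : InReg A (W.filter (fun v => d v = 0)) G) : InReg A W G :=
  h.of_subset (Finset.filter_subset _ _)

/-- the indicator of a nonempty active set -/
noncomputable def ind (g : ℕ → Gate (V × V)) (N : ℕ) (A : SimpleGraph V) (W : Finset V) : ℝ := by
  classical
  exact if (active g N A W).Nonempty then 1 else 0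

lemma ind_le_one (g : ℕ → Gate (V × V)) (N : ℕ) (A : SimpleGraph V) (W : Finset V) :
    ind g N A W ≤ 1 := by
  unfold ind
  split_ifs <;> norm_num

lemma av_ind_le_one (k C : ℕ) [NeZero k] [NeZero C] (g : ℕ → Gate (V × V)) (N T : ℕ)
    (A : SimpleGraph V) (W : Finset V) : av k C T (ind g N) A W ≤ 1 := by
  have := av_mono k C (fun _ _ _ => True) (fun _ _ _ _ _ => trivial) (fun _ _ _ _ _ => trivial)
    (ind g N) (fun _ _ => 1) (fun A W _ => ind_le_one g N A W) T A W trivial
  rwa [av_const] at this

lemma av_ind_zero (k C : ℕ) [NeZero k] [NeZero C] (g : ℕ → Gate (V × V)) (N T : ℕ)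
    (A : SimpleGraph V) (W : Finset V) (h : active g N A W = ∅) :
    av k C T (ind g N) A W ≤ 0 := by
  have := av_mono k C (fun _ A W => active g N A W = ∅)
    (fun T A W c h => by
      have := active_mono g N (A := A) (W := W) (A' := A ⊔ partOn W c) (W' := W)
        (fun G hG => hG.of_partOn)
      rw [h] at this
      exact Finset.subset_empty.mp this)
    (fun T A W d h => by
      have := active_mono g N (A := A) (W := W) (A' := A) (W' := W.filter (fun v => d v = 0))
        (fun G hG => filter_sub A W d G hG)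
      rw [h] at this
      exact Finset.subset_empty.mp this)
    (ind g N) (fun _ _ => 0) (fun A W hA => by
      unfold ind
      rw [hA]
      simp) T A W h
  rwa [av_const] at this

/-- one good step makes one more NOT gate constant -/
lemma active_step (k C w r : ℕ) [NeZero k] [NeZero C] (hr : 2 ≤ r) (hw : 2 ≤ w)
    (g : ℕ → Gate (V × V)) (N : ℕ) (A : SimpleGraph V) (W : Finset V) (ε : ℝ)
    (h1 : (N : ℝ) * (((r * w : ℕ) : ℝ) ^ w) ^ 2 ≤ ε * (C : ℝ) ^ (w + 1))
    (h2 : (N : ℝ) * (((r * w : ℕ) : ℝ) ^ w) ^ 2 * ((w * w : ℕ) : ℝ) ^ r / (k : ℝ) ^ r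
      + ((w * w : ℕ) : ℝ) / k ≤ ε)
    (hne : (active g (N + 1) A W).Nonempty) :
    (∃ D : Finset (V → Fin C), (D.card : ℝ) ≤ ε * (C : ℝ) ^ Fintype.card V ∧
      ∀ d, d ∉ D → (active g (N + 1) A (W.filter (fun v => d v = 0))).card + 1
        ≤ (active g (N + 1) A W).card) ∨
    (∃ D : Finset (V → Fin k), (D.card : ℝ) ≤ ε * (k : ℝ) ^ Fintype.card V ∧
      ∀ c, c ∉ D → (active g (N + 1) (A ⊔ partOn W c) W).card + 1
        ≤ (active g (N + 1) A W).card) := by
  set i := (active g (N + 1) A W).min' hne with hi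
  have hiact := (active g (N + 1) A W).min'_mem hne
  rw [← hi] at hiact
  have hiact' := (mem_active g (N + 1) A W i).mp hiact
  have hconst : ∀ j < i, (g j).isNot = true → ConstOn g A W j := by
    intro j hj hjn
    by_contra hcon
    have h3 : j ∈ active g (N + 1) A W := by
      rw [mem_active]
      exact ⟨by omega, hjn, hcon⟩
    have h4 := Finset.min'_le _ _ h3
    rw [← hi] at h4
    omega
  obtain ⟨a, ha⟩ : ∃ a, g i = .not a := by
    rcases hgi : g i with ⟨a, b⟩ | ⟨a, b⟩ | a
    · rw [hgi] at hiact'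
      exact absurd hiact'.2.1 (by simp [Gate.isNot])
    · rw [hgi] at hiact'
      exact absurd hiact'.2.1 (by simp [Gate.isNot])
    · exact ⟨a, rfl⟩
  have hk : 0 < k := Nat.pos_of_ne_zero (NeZero.ne k)
  have hiN : (i : ℝ) ≤ N := by
    have : i ≤ N := by omega
    exact_mod_cast this
  have h1' : (i : ℝ) * (((r * w : ℕ) : ℝ) ^ w) ^ 2 ≤ ε * (C : ℝ) ^ (w + 1) :=
    (mul_le_mul_of_nonneg_right hiN (by positivity)).trans h1
  have h2' : (i : ℝ) * (((r * w : ℕ) : ℝ) ^ w) ^ 2 * ((w * w : ℕ) : ℝ) ^ r / (k : ℝ) ^ r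
      + ((w * w : ℕ) : ℝ) / k ≤ ε := by
    refine le_trans ?_ h2
    gcongr
  have hargmono : ∀ G G', InReg A W G → InReg A W G' → G ≤ G' →
      argVal g i a (adjInput G) = true → argVal g i a (adjInput G') = true := by
    intro G G' hG hG' hGG h
    exact argVal_mono g i G G' hGG (value_mono g A W i hconst G G' hG hG' hGG) a h
  have hfin : ∀ (A' : SimpleGraph V) (W' : Finset V), (∀ G, InReg A' W' G → InReg A W G) →
      ConstOn g A' W' i → (active g (N + 1) A' W').card + 1 ≤ (active g (N + 1) A W).card := by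
    intro A' W' hsub hc
    have h3 : active g (N + 1) A' W' ⊆ (active g (N + 1) A W).erase i := by
      intro j hj
      rw [Finset.mem_erase]
      refine ⟨?_, active_mono g (N + 1) hsub hj⟩
      intro hji
      rw [hji, mem_active] at hj
      exact hj.2.2 hc
    have h4 := Finset.card_le_card h3
    rw [Finset.card_erase_of_mem hiact] at h4
    have h5 : 0 < (active g (N + 1) A W).card := Finset.card_pos.mpr hne
    omega
  rcases dichotomy k C w r hk hr hw g A W i hconst a ε h1' h2' with h | h
  · left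
    refine ⟨posBad C g A W i a, h, ?_⟩
    intro d hd
    apply hfin _ _ (fun G hG => filter_sub A W d G hG)
    have h3 : argVal g i a (adjInput (A ⊔ cliqueOn (W.filter (fun v => d v = 0)))) = false := by
      rw [← Bool.not_eq_true]
      intro h4
      apply hd
      unfold posBad
      rw [Finset.mem_filter]
      exact ⟨Finset.mem_univ _, h4⟩
    have h4 : ∀ G, InReg A (W.filter (fun v => d v = 0)) G →
        argVal g i a (adjInput G) = false := by
      intro G hG
      rw [← Bool.not_eq_true]
      intro h5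
      have h6 := hargmono G _ (filter_sub A W d G hG)
        (filter_sub A W d _ (inReg_top A _)) hG.2 h5
      rw [h3] at h6
      exact absurd h6 (by simp)
    intro G G' hG hG'
    rw [value_not g _ i a ha, value_not g _ i a ha, h4 G hG, h4 G' hG']
  · right
    refine ⟨negBad k g A W i a, h, ?_⟩
    intro c hc
    apply hfin _ _ (fun G hG => hG.of_partOn)
    have h3 : argVal g i a (adjInput (A ⊔ partOn W c)) = true := by
      rw [← Bool.not_eq_false]
      intro h4
      apply hc
      unfold negBad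
      rw [Finset.mem_filter]
      exact ⟨Finset.mem_univ _, h4⟩
    have h4 : ∀ G, InReg (A ⊔ partOn W c) W G → argVal g i a (adjInput G) = true := by
      intro G hG
      exact hargmono _ G ((inReg_bot (A ⊔ partOn W c) W).of_partOn) hG.of_partOn hG.1 h3
    intro G G' hG hG'
    rw [value_not g _ i a ha, value_not g _ i a ha, h4 G hG, h4 G' hG']

/-- average of a function which is at most `b` outside of a small set and at most `1` on it -/
lemma avg_le_of_bad (k : ℕ) [NeZero k] (f : (V → Fin k) → ℝ) (b ε : ℝ) (hb : 0 ≤ b)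
    (D : Finset (V → Fin k)) (hD : (D.card : ℝ) ≤ ε * (k : ℝ) ^ Fintype.card V)
    (hf1 : ∀ c, f c ≤ 1) (h : ∀ c, c ∉ D → f c ≤ b) :
    (∑ c, f c) / (k : ℝ) ^ Fintype.card V ≤ b + ε := by
  classical
  rw [div_le_iff₀ (pow_card_pos k)]
  calc ∑ c, f c ≤ ∑ c, (b + if c ∈ D then 1 else 0) := by
        apply Finset.sum_le_sum
        intro c _
        by_cases hc : c ∈ D
        · rw [if_pos hc]
          have := hf1 c
          linarith
        · rw [if_neg hc]
          have := h c hc
          linarith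
    _ = b * (k : ℝ) ^ Fintype.card V + D.card := by
        rw [Finset.sum_add_distrib, Finset.sum_const, nsmul_eq_mul, card_fun_real]
        simp [mul_comm]
    _ ≤ b * (k : ℝ) ^ Fintype.card V + ε * (k : ℝ) ^ Fintype.card V := by linarith
    _ = (b + ε) * (k : ℝ) ^ Fintype.card V := by ring

/-- the probability that some NOT gate is still not constant after `T` steps -/
theorem av_ind_le (k C w r : ℕ) [NeZero k] [NeZero C] (hr : 2 ≤ r) (hw : 2 ≤ w)
    (g : ℕ → Gate (V × V)) (N : ℕ) (ε : ℝ) (hε : 0 ≤ ε)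
    (h1 : (N : ℝ) * (((r * w : ℕ) : ℝ) ^ w) ^ 2 ≤ ε * (C : ℝ) ^ (w + 1))
    (h2 : (N : ℝ) * (((r * w : ℕ) : ℝ) ^ w) ^ 2 * ((w * w : ℕ) : ℝ) ^ r / (k : ℝ) ^ r
      + ((w * w : ℕ) : ℝ) / k ≤ ε)
    (T : ℕ) (A : SimpleGraph V) (W : Finset V) :
    av k C T (ind g (N + 1)) A W
      ≤ T * ε / 2 + (16 / 15 : ℝ) ^ (active g (N + 1) A W).card * (31 / 32 : ℝ) ^ T := by
  induction T generalizing A W with
  | zero =>
    show ind g (N + 1) A W ≤ _
    unfold ind
    split_ifs with hne
    · have h3 : (1 : ℝ) ≤ (16 / 15 : ℝ) ^ (active g (N + 1) A W).card := one_le_pow₀ (by norm_num)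
      simp only [Nat.cast_zero, zero_mul, zero_div, zero_add, pow_zero, mul_one]
      exact h3
    · positivity
  | succ T ih =>
    by_cases hne : (active g (N + 1) A W).Nonempty
    · set b := (active g (N + 1) A W).card with hb
      have hb1 : 1 ≤ b := Finset.card_pos.mpr hne
      -- bounds in all cases
      have hcard : ∀ (A' : SimpleGraph V) (W' : Finset V) (m : ℕ),
          (active g (N + 1) A' W').card ≤ m → av k C T (ind g (N + 1)) A' W'
            ≤ T * ε / 2 + (16 / 15 : ℝ) ^ m * (31 / 32 : ℝ) ^ T := by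
        intro A' W' m hm
        refine (ih A' W').trans ?_
        gcongr
        norm_num
      have hallc : ∀ c : V → Fin k, av k C T (ind g (N + 1)) (A ⊔ partOn W c) W
          ≤ T * ε / 2 + (16 / 15 : ℝ) ^ b * (31 / 32 : ℝ) ^ T := by
        intro c
        apply hcard
        exact Finset.card_le_card (active_mono g (N + 1) (fun G hG => hG.of_partOn))
      have halld : ∀ d : V → Fin C, av k C T (ind g (N + 1)) A (W.filter (fun v => d v = 0))
          ≤ T * ε / 2 + (16 / 15 : ℝ) ^ b * (31 / 32 : ℝ) ^ T := by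
        intro d
        apply hcard
        exact Finset.card_le_card (active_mono g (N + 1) (fun G hG => filter_sub A W d G hG))
      have hkey : (16 / 15 : ℝ) ^ (b - 1) + (16 / 15 : ℝ) ^ b
          = 2 * (31 / 32) * (16 / 15 : ℝ) ^ b := by
        obtain ⟨m, hm⟩ : ∃ m, b = m + 1 := ⟨b - 1, by omega⟩
        rw [hm, Nat.add_sub_cancel, pow_succ]
        ring
      have hbnn : 0 ≤ T * ε / 2 + (16 / 15 : ℝ) ^ (b - 1) * (31 / 32 : ℝ) ^ T := by positivity
      have hgoal : ((T * ε / 2 + (16 / 15 : ℝ) ^ (b - 1) * (31 / 32 : ℝ) ^ T) + ε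
          + (T * ε / 2 + (16 / 15 : ℝ) ^ b * (31 / 32 : ℝ) ^ T)) / 2
          = ((T + 1 : ℕ) : ℝ) * ε / 2 + (16 / 15 : ℝ) ^ b * (31 / 32 : ℝ) ^ (T + 1) := by
        have h3 : ((T * ε / 2 + (16 / 15 : ℝ) ^ (b - 1) * (31 / 32 : ℝ) ^ T) + ε
          + (T * ε / 2 + (16 / 15 : ℝ) ^ b * (31 / 32 : ℝ) ^ T)) / 2
          = (T * ε + ε) / 2 + (((16 / 15 : ℝ) ^ (b - 1) + (16 / 15 : ℝ) ^ b)) *
            (31 / 32 : ℝ) ^ T / 2 := by ring
        rw [h3, hkey]
        push_cast
        ring
      rcases active_step k C w r hr hw g N A W ε h1 h2 hne with ⟨D, hD, hDs⟩ | ⟨D, hD, hDs⟩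
      · unfold av
        have h3 := avg_le k (fun c => av k C T (ind g (N + 1)) (A ⊔ partOn W c) W) _ hallc
        have h4 := avg_le_of_bad C
          (fun d => av k C T (ind g (N + 1)) A (W.filter (fun v => d v = 0))) _ ε hbnn D hD
          (fun d => av_ind_le_one k C g (N + 1) T _ _)
          (fun d hd => hcard _ _ _ (by have := hDs d hd; omega))
        rw [← hgoal]
        linarith
      · unfold av
        have h3 := avg_le C
          (fun d => av k C T (ind g (N + 1)) A (W.filter (fun v => d v = 0))) _ halld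
        have h4 := avg_le_of_bad k (fun c => av k C T (ind g (N + 1)) (A ⊔ partOn W c) W) _ ε
          hbnn D hD (fun c => av_ind_le_one k C g (N + 1) T _ _)
          (fun c hc => hcard _ _ _ (by have := hDs c hc; omega))
        rw [← hgoal]
        linarith
    · rw [Finset.not_nonempty_iff_eq_empty] at hne
      refine (av_ind_zero k C g (N + 1) (T + 1) A W hne).trans ?_
      positivity

end Pool.Agent.Helper6.Neg
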