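import Pool.Agent.Helper6.Neg.Approx

/-!
Regions `{G : A ≤ G ≤ A ⊔ K_W}` of graphs, and the dichotomy for circuits on a region.
-/

set_option autoImplicit false
set_option linter.unusedSectionVars false

namespace Pool.Agent.Helper6.Neg

variable {V : Type} [Fintype V] [DecidableEq V]

/-- the complete graph on `W` -/
def cliqueOn (W : Finset V) : SimpleGraph V where
  Adj u v := u ∈ W ∧ v ∈ W ∧ u ≠ v
  symm := ⟨fun _ _ h => ⟨h.2.1, h.1, fun h' => h.2.2 h'.symm⟩⟩
  loopless := ⟨fun _ h => h.2.2 rfl⟩

/-- the complete multipartite graph on `W` given by a colouring -/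
def partOn {k : ℕ} (W : Finset V) (c : V → Fin k) : SimpleGraph V where
  Adj u v := u ∈ W ∧ v ∈ W ∧ c u ≠ c v
  symm := ⟨fun _ _ h => ⟨h.2.1, h.1, fun h' => h.2.2 h'.symm⟩⟩
  loopless := ⟨fun _ h => h.2.2 rfl⟩

lemma partOn_le {k : ℕ} (W : Finset V) (c : V → Fin k) : partOn W c ≤ cliqueOn W := by
  intro u v h
  exact ⟨h.1, h.2.1, fun h' => h.2.2 (by rw [h'])⟩

lemma cliqueOn_mono {W W' : Finset V} (h : W ⊆ W') : cliqueOn W ≤ cliqueOn W' := by
  intro u v h'
  exact ⟨h h'.1, h h'.2.1, h'.2.2⟩

/-- the region of `A` and `W` -/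
def InReg (A : SimpleGraph V) (W : Finset V) (G : SimpleGraph V) : Prop :=
  A ≤ G ∧ G ≤ A ⊔ cliqueOn W

lemma inReg_bot (A : SimpleGraph V) (W : Finset V) : InReg A W A := ⟨le_rfl, le_sup_left⟩

lemma inReg_top (A : SimpleGraph V) (W : Finset V) : InReg A W (A ⊔ cliqueOn W) :=
  ⟨le_sup_left, le_rfl⟩

lemma InReg.of_subset {A : SimpleGraph V} {W W' : Finset V} {G : SimpleGraph V}
    (h : InReg A W' G) (hW : W' ⊆ W) : InReg A W G :=
  ⟨h.1, h.2.trans (sup_le_sup_left (cliqueOn_mono hW) A)⟩

lemma InReg.of_partOn {k : ℕ} {A : SimpleGraph V} {W : Finset V} {c : V → Fin k}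
    {G : SimpleGraph V} (h : InReg (A ⊔ partOn W c) W G) : InReg A W G := by
  refine ⟨le_sup_left.trans h.1, h.2.trans ?_⟩
  rw [sup_assoc]
  exact sup_le_sup_left (sup_le (partOn_le W c) le_rfl) A

/-- the gate of index `i` is constant on the region -/
def ConstOn (g : ℕ → Gate (V × V)) (A : SimpleGraph V) (W : Finset V) (i : ℕ) : Prop :=
  ∀ G G', InReg A W G → InReg A W G' → value g (adjInput G) i = value g (adjInput G') i

lemma argVal_mono (g : ℕ → Gate (V × V)) (i : ℕ) (G G' : SimpleGraph V) (hGG : G ≤ G')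
    (h : ∀ j < i, value g (adjInput G) j = true → value g (adjInput G') j = true)
    (a : Arg (V × V)) (ha : argVal g i a (adjInput G) = true) :
    argVal g i a (adjInput G') = true := by
  cases a with
  | input e =>
    have h1 : adjInput G e = true := ha
    rw [adjInput_eq_true] at h1
    show adjInput G' e = true
    rw [adjInput_eq_true]
    exact hGG h1
  | const b => exact ha
  | gate m =>
    simp only [argVal, Arg.val] at ha ⊢
    by_cases hm : m < i
    · rw [if_pos hm] at ha ⊢
      exact h m hm ha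
    · rw [if_neg hm] at ha
      exact absurd ha (by simp)

lemma value_mono (g : ℕ → Gate (V × V)) (A : SimpleGraph V) (W : Finset V) (i : ℕ)
    (hconst : ∀ j < i, (g j).isNot = true → ConstOn g A W j) (G G' : SimpleGraph V)
    (hG : InReg A W G) (hG' : InReg A W G') (hGG : G ≤ G') :
    ∀ j < i, value g (adjInput G) j = true → value g (adjInput G') j = true := by
  intro j
  induction j using Nat.strong_induction_on with
  | _ j ih =>
    intro hj hv
    have h1 : ∀ m < j, value g (adjInput G) m = true → value g (adjInput G') m = true :=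
      fun m hm => ih m hm (by omega)
    rcases hgj : g j with ⟨a, b⟩ | ⟨a, b⟩ | a
    · rw [value_and g _ j a b hgj] at hv ⊢
      rw [Bool.and_eq_true] at hv ⊢
      exact ⟨argVal_mono g j G G' hGG h1 a hv.1, argVal_mono g j G G' hGG h1 b hv.2⟩
    · rw [value_or g _ j a b hgj] at hv ⊢
      rw [Bool.or_eq_true] at hv ⊢
      rcases hv with h | h
      · exact Or.inl (argVal_mono g j G G' hGG h1 a h)
      · exact Or.inr (argVal_mono g j G G' hGG h1 b h)
    · have h2 := hconst j hj (by rw [hgj]; rfl) G G' hG hG'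
      rw [← h2]
      exact hv

section dich

variable (k C w r : ℕ) [NeZero C]

/-- the positive tests of a region -/
noncomputable def posT {C : ℕ} [NeZero C] (A : SimpleGraph V) (W : Finset V) (d : V → Fin C) :
    V × V → Bool :=
  adjInput (A ⊔ cliqueOn (W.filter (fun v => d v = 0)))

/-- the negative tests of a region -/
noncomputable def negT {k : ℕ} (A : SimpleGraph V) (W : Finset V) (c : V → Fin k) :
    V × V → Bool :=
  adjInput (A ⊔ partOn W c)

lemma approx_input (hr : 2 ≤ r) (hw : 2 ≤ w) (A : SimpleGraph V) (W : Finset V) (e : V × V) :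
    ∃ F, Approx k C w r (posT A W) (negT A W) F ∅ ∅ (fun x => x e) := by
  classical
  obtain ⟨u, v⟩ := e
  by_cases hA : A.Adj u v
  · apply approx_const hr (by omega) _ _ _ true
    · intro d
      show adjInput _ (u, v) = true
      rw [adjInput_eq_true]
      exact Or.inl hA
    · intro c
      show adjInput _ (u, v) = true
      rw [adjInput_eq_true]
      exact Or.inl hA
  · by_cases hW : u ∈ W ∧ v ∈ W ∧ u ≠ v
    · refine ⟨{{u, v}}, ⟨?_, ?_, ?_, ?_⟩⟩
      · rw [Finset.card_singleton]
        exact Nat.one_le_pow _ _ (by positivity)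
      · intro X hX
        rw [Finset.mem_singleton] at hX
        rw [hX]
        exact (Finset.card_le_two).trans hw
      · intro d _ hd
        have h1 : adjInput (A ⊔ cliqueOn (W.filter (fun v => d v = 0))) (u, v) = true := hd
        rw [adjInput_eq_true] at h1
        rcases h1 with h | h
        · exact absurd h hA
        · refine ⟨{u, v}, by simp, ?_⟩
          intro x hx
          rw [Finset.mem_insert, Finset.mem_singleton] at hx
          rcases hx with rfl | rfl
          · exact (Finset.mem_filter.mp h.1).2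
          · exact (Finset.mem_filter.mp h.2.1).2
      · intro c _ hc
        obtain ⟨X, hX, hXc⟩ := hc
        rw [Finset.mem_singleton] at hX
        rw [hX] at hXc
        show adjInput (A ⊔ partOn W c) (u, v) = true
        rw [adjInput_eq_true]
        refine Or.inr ⟨hW.1, hW.2.1, ?_⟩
        intro h
        exact hW.2.2 (hXc (by simp) (by simp) h)
    · apply approx_const hr (by omega) _ _ _ false
      · intro d
        show adjInput (A ⊔ cliqueOn (W.filter (fun v => d v = 0))) (u, v) = false
        rw [← Bool.not_eq_true, adjInput_eq_true]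
        rintro (h | h)
        · exact hA h
        · exact hW ⟨(Finset.mem_filter.mp h.1).1, (Finset.mem_filter.mp h.2.1).1, h.2.2⟩
      · intro c
        show adjInput (A ⊔ partOn W c) (u, v) = false
        rw [← Bool.not_eq_true, adjInput_eq_true]
        rintro (h | h)
        · exact hA h
        · exact hW ⟨h.1, h.2.1, fun h' => h.2.2 (by rw [h'])⟩

/-- the `d` for which the positive test is accepted -/
noncomputable def posBad (g : ℕ → Gate (V × V)) (A : SimpleGraph V) (W : Finset V) (i : ℕ)
    (a : Arg (V × V)) : Finset (V → Fin C) :=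
  Finset.univ.filter (fun d => argVal g i a (posT A W d) = true)

/-- the `c` for which the negative test is rejected -/
noncomputable def negBad (g : ℕ → Gate (V × V)) (A : SimpleGraph V) (W : Finset V) (i : ℕ)
    (a : Arg (V × V)) : Finset (V → Fin k) :=
  Finset.univ.filter (fun c => argVal g i a (negT A W c) = false)

/-- **the dichotomy** -/
theorem dichotomy (hk : 0 < k) (hr : 2 ≤ r) (hw : 2 ≤ w) (g : ℕ → Gate (V × V))
    (A : SimpleGraph V)
    (W : Finset V) (i : ℕ) (hconst : ∀ j < i, (g j).isNot = true → ConstOn g A W j)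
    (a : Arg (V × V)) (ε : ℝ)
    (h1 : (i : ℝ) * (((r * w : ℕ) : ℝ) ^ w) ^ 2 ≤ ε * (C : ℝ) ^ (w + 1))
    (h2 : (i : ℝ) * (((r * w : ℕ) : ℝ) ^ w) ^ 2 * ((w * w : ℕ) : ℝ) ^ r / (k : ℝ) ^ r
      + ((w * w : ℕ) : ℝ) / k ≤ ε) :
    ((posBad C g A W i a).card : ℝ) ≤ ε * (C : ℝ) ^ Fintype.card V ∨
    ((negBad k g A W i a).card : ℝ) ≤ ε * (k : ℝ) ^ Fintype.card V := by
  classical
  have hC : 0 < C := Nat.pos_of_ne_zero (NeZero.ne C)
  have hCr : (0 : ℝ) < C := by exact_mod_cast hC
  have hkr : (0 : ℝ) < k := by exact_mod_cast hk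
  obtain ⟨E, E', hE, hE', happ⟩ := exists_approx (k := k) (C := C) (w := w) (r := r)
    (posX := posT A W) (negX := negT A W) hr (by omega) g
    (fun e => approx_input k C w r hr hw A W e) i (by
      intro j hj b hb
      have hc := hconst j hj (by rw [hb]; rfl)
      refine ⟨value g (adjInput A) j, ?_, ?_⟩
      · intro d
        exact hc _ _ ((inReg_top A _).of_subset (Finset.filter_subset _ _)) (inReg_bot A W)
      · intro c
        exact hc _ _ ((inReg_bot (A ⊔ partOn W c) W).of_partOn) (inReg_bot A W))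
  have harg : ∃ F, Approx k C w r (posT A W) (negT A W) F E E' (argVal g i a) := by
    cases a with
    | input e =>
      obtain ⟨F, hF⟩ := approx_input k C w r hr hw A W e
      exact ⟨F, hF.mono (Finset.empty_subset _) (Finset.empty_subset _)⟩
    | const b =>
      exact approx_const hr (by omega) E E' _ b (fun _ => rfl) (fun _ => rfl)
    | gate m =>
      by_cases hm : m < i
      · obtain ⟨F, hF⟩ := happ m hm
        refine ⟨F, ?_⟩
        have : (argVal g i (.gate m)) = fun x => value g x m := by
          funext x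
          simp [argVal, Arg.val, hm]
        rw [this]
        exact hF
      · have : (argVal g i (.gate m)) = fun _ => false := by
          funext x
          simp [argVal, Arg.val, hm]
        rw [this]
        exact approx_const hr (by omega) E E' _ false (fun _ => rfl) (fun _ => rfl)
  obtain ⟨F, hF⟩ := harg
  rcases Finset.eq_empty_or_nonempty F with hF0 | ⟨X, hX⟩
  · left
    have hsub : posBad C g A W i a ⊆ E := by
      intro d hd
      by_contra hdE
      have h3 := (Finset.mem_filter.mp hd).2
      obtain ⟨X, hX, -⟩ := hF.pos d hdE h3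
      rw [hF0] at hX
      simp at hX
    have h3 : ((posBad C g A W i a).card : ℝ) ≤ E.card := by
      exact_mod_cast Finset.card_le_card hsub
    have h4 : (E.card : ℝ) * (C : ℝ) ^ (w + 1)
        ≤ i * ((((r * w : ℕ) : ℝ) ^ w) ^ 2 * (C : ℝ) ^ Fintype.card V) := by
      exact_mod_cast hE
    have h5 : (E.card : ℝ) * (C : ℝ) ^ (w + 1)
        ≤ (ε * (C : ℝ) ^ Fintype.card V) * (C : ℝ) ^ (w + 1) := by
      calc (E.card : ℝ) * (C : ℝ) ^ (w + 1) ≤ _ := h4
        _ = (i * (((r * w : ℕ) : ℝ) ^ w) ^ 2) * (C : ℝ) ^ Fintype.card V := by ring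
        _ ≤ (ε * (C : ℝ) ^ (w + 1)) * (C : ℝ) ^ Fintype.card V :=
            mul_le_mul_of_nonneg_right h1 (by positivity)
        _ = _ := by ring
    exact h3.trans (le_of_mul_le_mul_right h5 (by positivity))
  · right
    have hsub : negBad k g A W i a ⊆ E' ∪ notInj k X := by
      intro c hc
      rw [Finset.mem_union, mem_notInj]
      by_contra hcon
      push Not at hcon
      have h3 := (Finset.mem_filter.mp hc).2
      have h4 := hF.neg c hcon.1 ⟨X, hX, hcon.2⟩
      rw [h3] at h4
      exact absurd h4 (by simp)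
    have h3 : ((negBad k g A W i a).card : ℝ) ≤ E'.card + (notInj k X).card := by
      have := (Finset.card_le_card hsub).trans (Finset.card_union_le _ _)
      exact_mod_cast this
    have h4 : (E'.card : ℝ) * (k : ℝ) ^ r
        ≤ i * ((((r * w : ℕ) : ℝ) ^ w) ^ 2 * (((w * w : ℕ) : ℝ) ^ r * (k : ℝ) ^ Fintype.card V)) := by
      exact_mod_cast hE'
    have h5 : ((notInj k X).card : ℝ) * k ≤ ((w * w : ℕ) : ℝ) * (k : ℝ) ^ Fintype.card V := by
      have := card_notInj k w X (hF.size X hX)
      exact_mod_cast this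
    have h6 : (E'.card : ℝ) ≤ ((i : ℝ) * (((r * w : ℕ) : ℝ) ^ w) ^ 2 * ((w * w : ℕ) : ℝ) ^ r /
        (k : ℝ) ^ r) * (k : ℝ) ^ Fintype.card V := by
      rw [div_mul_eq_mul_div, le_div_iff₀ (by positivity)]
      calc (E'.card : ℝ) * (k : ℝ) ^ r ≤ _ := h4
        _ = _ := by ring
    have h7 : ((notInj k X).card : ℝ) ≤ (((w * w : ℕ) : ℝ) / k) * (k : ℝ) ^ Fintype.card V := by
      rw [div_mul_eq_mul_div, le_div_iff₀ hkr]
      exact h5
    calc ((negBad k g A W i a).card : ℝ) ≤ E'.card + (notInj k X).card := h3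
      _ ≤ _ := add_le_add h6 h7
      _ = ((i : ℝ) * (((r * w : ℕ) : ℝ) ^ w) ^ 2 * ((w * w : ℕ) : ℝ) ^ r / (k : ℝ) ^ r
          + ((w * w : ℕ) : ℝ) / k) * (k : ℝ) ^ Fintype.card V := by ring
      _ ≤ ε * (k : ℝ) ^ Fintype.card V := mul_le_mul_of_nonneg_right h2 (by positivity)

end dich

end Pool.Agent.Helper6.Neg
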