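import Pool.Agent.Helper6.Neg.Process

/-!
The final set `W` is large, and the final graph `A` has a colouring with few colours.
-/

set_option autoImplicit false
set_option linter.unusedSectionVars false

namespace Pool.Agent.Helper6.Neg

variable {V : Type} [Fintype V] [DecidableEq V]

/-- average of a product -/
lemma sum_prod (C : ℕ) [NeZero C] (Y : Finset V) (x : ℝ) :
    (∑ d : V → Fin C, ∏ v ∈ Y, (if d v = 0 then x else 1)) / (C : ℝ) ^ Fintype.card V
      = ((x + C - 1) / C) ^ Y.card := by
  classical
  have hC : (0 : ℝ) < C := by exact_mod_cast Nat.pos_of_ne_zero (NeZero.ne C)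
  have h1 : ∀ d : V → Fin C, ∏ v ∈ Y, (if d v = 0 then x else 1)
      = ∏ v : V, (if v ∈ Y then (if d v = 0 then x else 1) else 1) := by
    intro d
    rw [Finset.prod_ite_mem, Finset.univ_inter]
  have h2 : ∑ d : V → Fin C, ∏ v : V, (if v ∈ Y then (if d v = 0 then x else (1 : ℝ)) else 1)
      = ∏ v : V, ∑ j : Fin C, (if v ∈ Y then (if j = 0 then x else (1 : ℝ)) else 1) := by
    rw [Finset.prod_univ_sum, Fintype.piFinset_univ]
  have h3 : ∀ v : V, ∑ j : Fin C, (if v ∈ Y then (if j = 0 then x else (1 : ℝ)) else 1)
      = if v ∈ Y then x + C - 1 else C := by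
    intro v
    by_cases hv : v ∈ Y
    · simp only [if_pos hv]
      rw [Finset.sum_ite, Finset.sum_const, Finset.sum_const]
      have h4 : (Finset.univ.filter (fun j : Fin C => j = 0)).card = 1 := by
        rw [Finset.filter_eq' Finset.univ (0 : Fin C)]
        simp
      have h5 : (Finset.univ.filter (fun j : Fin C => ¬ j = 0)).card = C - 1 := by
        have := Finset.card_filter_add_card_filter_not (s := (Finset.univ : Finset (Fin C)))
          (fun j => j = 0)
        rw [h4, Finset.card_univ, Fintype.card_fin] at this
        omega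
      rw [h4, h5]
      have hC1 : 1 ≤ C := Nat.pos_of_ne_zero (NeZero.ne C)
      rw [nsmul_eq_mul, nsmul_eq_mul, Nat.cast_sub hC1]
      push_cast
      ring
    · simp [hv]
  rw [Finset.sum_congr rfl (fun d _ => h1 d), h2, Finset.prod_congr rfl (fun v _ => h3 v),
    Finset.prod_ite, Finset.prod_const, Finset.prod_const]
  have h4 : (Finset.univ.filter (fun v => v ∈ Y)) = Y := by
    ext v; simp
  have h5 : (Finset.univ.filter (fun v => v ∉ Y)).card + Y.card = Fintype.card V := by
    have := Finset.card_filter_add_card_filter_not (s := (Finset.univ : Finset V)) (fun v => v ∈ Y)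
    rw [h4, Finset.card_univ] at this
    omega
  rw [h4, ← h5, pow_add, div_pow, mul_comm ((C : ℝ) ^ _) ((C : ℝ) ^ Y.card)]
  rw [mul_div_mul_right _ _ (by positivity)]

lemma prod_filter_card (C : ℕ) [NeZero C] (W B : Finset V) (x : ℝ) (d : V → Fin C) :
    x ^ ((W.filter (fun v => d v = 0)) ∩ B).card
      = ∏ v ∈ W ∩ B, (if d v = 0 then x else 1) := by
  rw [Finset.prod_ite, Finset.prod_const, Finset.prod_const_one, mul_one]
  congr 2
  ext v
  simp only [Finset.mem_inter, Finset.mem_filter]
  tauto

/-- the final set is large -/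
theorem av_small_le (k C : ℕ) [NeZero k] [NeZero C] (s : ℕ) (hs : 0 < s)
    (B : Fin (2 * s) → Finset V) (hB : ∀ i j, i ≠ j → Disjoint (B i) (B j)) (T : ℕ)
    (A : SimpleGraph V) (W : Finset V) :
    av k C T (fun _ W => if W.card < s then 1 else 0) A W
      ≤ (∑ i, (1 - 1 / (C : ℝ) ^ T) ^ (W ∩ B i).card) / s := by
  have hsr : (0 : ℝ) < s := by exact_mod_cast hs
  have hC1 : 1 ≤ C := Nat.pos_of_ne_zero (NeZero.ne C)
  have hC1r : (1 : ℝ) ≤ C := by exact_mod_cast hC1
  induction T generalizing A W with
  | zero =>
    show (if W.card < s then (1 : ℝ) else 0) ≤ _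
    simp only [pow_zero, div_one, sub_self]
    split_ifs with h
    · rw [le_div_iff₀ hsr, one_mul]
      have h1 : ∑ i, (W ∩ B i).card ≤ W.card := by
        rw [← Finset.card_biUnion]
        · apply Finset.card_le_card
          intro v hv
          obtain ⟨i, -, hi⟩ := Finset.mem_biUnion.mp hv
          exact (Finset.mem_inter.mp hi).1
        · intro i _ j _ hij
          exact (hB i j hij).mono Finset.inter_subset_right Finset.inter_subset_right
      have h2 : ∀ m : ℕ, (1 : ℝ) - m ≤ (0 : ℝ) ^ m := by
        intro m
        cases m with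
        | zero => simp
        | succ m => simp
      calc (s : ℝ) ≤ 2 * s - W.card := by
            have : (W.card : ℝ) ≤ s := by exact_mod_cast h.le
            linarith
        _ ≤ 2 * s - ((∑ i, (W ∩ B i).card : ℕ) : ℝ) := by
            have : ((∑ i, (W ∩ B i).card : ℕ) : ℝ) ≤ W.card := by exact_mod_cast h1
            linarith
        _ = ∑ i, ((1 : ℝ) - (W ∩ B i).card) := by
            rw [Finset.sum_sub_distrib, Finset.sum_const, Finset.card_univ, Fintype.card_fin]
            push_cast
            ring
        _ ≤ ∑ i, (0 : ℝ) ^ (W ∩ B i).card := Finset.sum_le_sum (fun i _ => h2 _)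
    · positivity
  | succ T ih =>
    unfold av
    have hCT : (1 : ℝ) ≤ (C : ℝ) ^ T := one_le_pow₀ hC1r
    have h0 : (0 : ℝ) ≤ 1 - 1 / (C : ℝ) ^ T := by
      have : 1 / (C : ℝ) ^ T ≤ 1 := by
        rw [div_le_one (by positivity)]
        exact hCT
      linarith
    have hle : (1 : ℝ) - 1 / (C : ℝ) ^ T ≤ 1 - 1 / (C : ℝ) ^ (T + 1) := by
      have : 1 / (C : ℝ) ^ (T + 1) ≤ 1 / (C : ℝ) ^ T := by
        apply one_div_le_one_div_of_le (by positivity)
        exact pow_le_pow_right₀ hC1r (Nat.le_succ T)
      linarith
    have h1 : (∑ c : V → Fin k, av k C T (fun _ W => if W.card < s then 1 else 0)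
        (A ⊔ partOn W c) W) / (k : ℝ) ^ Fintype.card V
        ≤ (∑ i, (1 - 1 / (C : ℝ) ^ (T + 1)) ^ (W ∩ B i).card) / s := by
      apply avg_le
      intro c
      refine (ih _ _).trans ?_
      gcongr
    have h2 : (∑ d : V → Fin C, av k C T (fun _ W => if W.card < s then 1 else 0) A
        (W.filter (fun v => d v = 0))) / (C : ℝ) ^ Fintype.card V
        ≤ (∑ i, (1 - 1 / (C : ℝ) ^ (T + 1)) ^ (W ∩ B i).card) / s := by
      calc (∑ d : V → Fin C, av k C T (fun _ W => if W.card < s then 1 else 0) A
            (W.filter (fun v => d v = 0))) / (C : ℝ) ^ Fintype.card V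
          ≤ (∑ d : V → Fin C, (∑ i, (1 - 1 / (C : ℝ) ^ T) ^
              ((W.filter (fun v => d v = 0)) ∩ B i).card) / s) / (C : ℝ) ^ Fintype.card V := by
            have hp := pow_card_pos (V := V) C
            gcongr with d _
            exact ih _ _
        _ = (∑ i, (∑ d : V → Fin C, (1 - 1 / (C : ℝ) ^ T) ^
              ((W.filter (fun v => d v = 0)) ∩ B i).card) / (C : ℝ) ^ Fintype.card V) / s := by
            rw [← Finset.sum_div, Finset.sum_comm, ← Finset.sum_div, div_right_comm]
        _ = (∑ i, (1 - 1 / (C : ℝ) ^ (T + 1)) ^ (W ∩ B i).card) / s := by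
            congr 1
            apply Finset.sum_congr rfl
            intro i _
            rw [Finset.sum_congr rfl (fun d _ => prod_filter_card C W (B i) _ d), sum_prod]
            congr 1
            have hC0 : (C : ℝ) ≠ 0 := by positivity
            rw [pow_succ]
            field_simp
            ring
    linarith

/-- blocks in `Fin n` -/
lemma exists_blocks (n m b : ℕ) (h : m * b ≤ n) :
    ∃ B : Fin m → Finset (Fin n), (∀ i j, i ≠ j → Disjoint (B i) (B j)) ∧ ∀ i, b ≤ (B i).card := by
  refine ⟨fun i => Finset.univ.filter (fun v => i.val * b ≤ v.val ∧ v.val < (i.val + 1) * b),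
    ?_, ?_⟩
  · intro i j hij
    rw [Finset.disjoint_left]
    intro v hv hv'
    have h1 := (Finset.mem_filter.mp hv).2
    have h2 := (Finset.mem_filter.mp hv').2
    apply hij
    apply Fin.ext
    have h3 : i.val < j.val + 1 := by
      by_contra hcon
      push Not at hcon
      have := Nat.mul_le_mul_right b hcon
      omega
    have h4 : j.val < i.val + 1 := by
      by_contra hcon
      push Not at hcon
      have := Nat.mul_le_mul_right b hcon
      omega
    omega
  · intro i
    have hi : (i.val + 1) * b ≤ n := by
      calc (i.val + 1) * b ≤ m * b := Nat.mul_le_mul_right _ i.2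
        _ ≤ n := h
    have hinj : Function.Injective (fun j : Fin b => (⟨i.val * b + j.val, by
        have := j.2
        have h3 : (i.val + 1) * b = i.val * b + b := by ring
        omega⟩ : Fin n)) := by
      intro j j' hjj
      have := congrArg Fin.val hjj
      simp only at this
      exact Fin.ext (by omega)
    calc b = (Finset.univ.image (fun j : Fin b => (⟨i.val * b + j.val, by
        have := j.2
        have h3 : (i.val + 1) * b = i.val * b + b := by ring
        omega⟩ : Fin n))).card := by
          rw [Finset.card_image_of_injective _ hinj]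
          simp
      _ ≤ _ := by
          apply Finset.card_le_card
          intro v hv
          obtain ⟨j, -, rfl⟩ := Finset.mem_image.mp hv
          rw [Finset.mem_filter]
          refine ⟨Finset.mem_univ _, ?_, ?_⟩
          · show i.val * b ≤ i.val * b + j.val
            omega
          · show i.val * b + j.val < (i.val + 1) * b
            have := j.2
            have h3 : (i.val + 1) * b = i.val * b + b := by ring
            omega

lemma colorable_partOn {k j : ℕ} [NeZero k] {A : SimpleGraph V} (hA : A.Colorable j)
    (W : Finset V) (c : V → Fin k) : (A ⊔ partOn W c).Colorable (j * k) := by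
  obtain ⟨κ⟩ := hA
  let col : V → Fin j × Fin k := fun v => (κ v, if v ∈ W then c v else 0)
  have hcol : ∀ {u v : V}, (A ⊔ partOn W c).Adj u v → col u ≠ col v := by
    intro u v huv h
    rcases huv with h1 | h1
    · exact κ.valid h1 (congrArg Prod.fst h)
    · have h2 := congrArg Prod.snd h
      simp only [col, if_pos h1.1, if_pos h1.2.1] at h2
      exact h1.2.2 h2
  have := (SimpleGraph.Coloring.mk col hcol).colorable
  simpa [Fintype.card_prod] using this

end Pool.Agent.Helper6.Neg
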